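import Pool.Agent.Helper66.RMT.Defs

/-! Project RMT, blocks A4a and A4b. -/

set_option autoImplicit false

namespace Pool.Agent.Helper66.RMT

open MeasureTheory ProbabilityTheory Filter Finset Topology

lemma dz_eq_zero_iff {N : ℕ} (θ : Fin N → ℝ) (j : Fin N) :
    dz θ j = 0 ↔ ∃ k, k ≠ j ∧ Complex.exp (θ k * Complex.I) = Complex.exp (θ j * Complex.I) := by
  unfold dz
  rw [Finset.prod_eq_zero_iff]
  constructor
  · rintro ⟨k, hk, h⟩
    refine ⟨k, (Finset.mem_erase.1 hk).1, ?_⟩
    have h1 : Complex.exp ((θ k - θ j : ℝ) * Complex.I) = 1 := (sub_eq_zero.1 h).symm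
    have h2 : Complex.exp (θ k * Complex.I) =
        Complex.exp ((θ k - θ j : ℝ) * Complex.I) * Complex.exp (θ j * Complex.I) := by
      rw [← Complex.exp_add]; congr 1; push_cast; ring
    rw [h2, h1, one_mul]
  · rintro ⟨k, hk, h⟩
    refine ⟨k, Finset.mem_erase.2 ⟨hk, Finset.mem_univ k⟩, ?_⟩
    have h2 : Complex.exp ((θ k - θ j : ℝ) * Complex.I) =
        Complex.exp (θ k * Complex.I) / Complex.exp (θ j * Complex.I) := by
      rw [← Complex.exp_sub]; congr 1; push_cast; ring
    rw [h2, h, div_self (Complex.exp_ne_zero _), sub_self]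

/-- A4a. Almost surely the eigenangles are distinct. -/
theorem ae_distinct (N : ℕ) : ∀ᵐ θ ∂(cue N), ∀ j, dz θ j ≠ 0 := by
  have hac : cue N ≪ volume.restrict (box N) := withDensity_absolutelyContinuous _ _
  apply hac.ae_le
  have hbox : MeasurableSet (box N) := MeasurableSet.univ_pi fun _ => measurableSet_Ico
  have h1 : ∀ᵐ θ ∂(volume : Measure (Fin N → ℝ)), ∀ j k : Fin N, k ≠ j → θ k ≠ θ j := by
    rw [ae_all_iff]; intro j
    rw [ae_all_iff]; intro k
    by_cases hkj : k = j
    · exact Filter.Eventually.of_forall fun θ h => absurd hkj h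
    · let S : Submodule ℝ (Fin N → ℝ) := LinearMap.ker
        ((LinearMap.proj k : (Fin N → ℝ) →ₗ[ℝ] ℝ) - LinearMap.proj j)
      have hS : S ≠ ⊤ := by
        intro h
        have h2 : (Pi.single k (1 : ℝ) : Fin N → ℝ) ∈ S := by rw [h]; trivial
        rw [LinearMap.mem_ker, LinearMap.sub_apply, LinearMap.proj_apply, LinearMap.proj_apply,
          Pi.single_eq_same, Pi.single_eq_of_ne (Ne.symm hkj)] at h2
        norm_num at h2
      have h3 := Measure.addHaar_submodule (volume : Measure (Fin N → ℝ)) S hS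
      rw [ae_iff]
      refine measure_mono_null ?_ h3
      intro θ hθ
      have hθ' : ¬ (k ≠ j → θ k ≠ θ j) := hθ
      push Not at hθ'
      have h4 := hθ'.2
      show θ ∈ S
      rw [LinearMap.mem_ker, LinearMap.sub_apply, LinearMap.proj_apply, LinearMap.proj_apply, h4, sub_self]
  show ∀ᵐ θ ∂((volume : Measure (Fin N → ℝ)).restrict (box N)), ∀ j, dz θ j ≠ 0
  rw [ae_restrict_iff' hbox]
  filter_upwards [h1] with θ hθ hb j hdz
  obtain ⟨k, hk, he⟩ := (dz_eq_zero_iff θ j).1 hdz
  refine hθ j k hk ?_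
  rw [Complex.exp_eq_exp_iff_exists_int] at he
  obtain ⟨n, hn⟩ := he
  have h5 : (θ k : ℂ) * Complex.I = ((θ j + n * (2 * Real.pi) : ℝ) : ℂ) * Complex.I := by
    rw [hn]; push_cast; ring
  have h6 : (θ k : ℂ) = ((θ j + n * (2 * Real.pi) : ℝ) : ℂ) := mul_right_cancel₀ Complex.I_ne_zero h5
  have h7 : θ k = θ j + n * (2 * Real.pi) := by exact_mod_cast h6
  have hk1 := hb k (Set.mem_univ k)
  have hj1 := hb j (Set.mem_univ j)
  rw [Set.mem_Ico] at hk1 hj1
  have hpi := Real.pi_pos
  have h8 : (n : ℝ) < 1 := by nlinarith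
  have h9 : (-1 : ℝ) < n := by nlinarith
  have h10 : n = 0 := by
    have a1 : n < 1 := by exact_mod_cast h8
    have a2 : -1 < n := by exact_mod_cast h9
    omega
  rw [h7, h10]; simp

/-- A4b. Lagrange interpolation. -/
theorem lagr {N : ℕ} (hN : 1 ≤ N) (θ : Fin N → ℝ) (h : ∀ j, dz θ j ≠ 0) : ∑ j, 1 / dz θ j = 1 := by
  classical
  set v : Fin N → ℂ := fun j => Complex.exp (θ j * Complex.I) with hv
  have hinj : Set.InjOn v (Finset.univ : Finset (Fin N)) := by
    intro a _ b _ hab
    by_contra hne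
    exact h b ((dz_eq_zero_iff θ b).2 ⟨a, hne, hab⟩)
  have h1 := Lagrange.coeff_eq_sum hinj (P := (Polynomial.X : Polynomial ℂ) ^ (N - 1)) (by
    rw [Polynomial.degree_X_pow, Finset.card_univ, Fintype.card_fin]
    exact_mod_cast (by omega : N - 1 < N))
  rw [Finset.card_univ, Fintype.card_fin, Polynomial.coeff_X_pow_self] at h1
  refine Eq.trans ?_ h1.symm
  refine Finset.sum_congr rfl fun j _ => ?_
  rw [Polynomial.eval_pow, Polynomial.eval_X]
  have h2 : dz θ j = (∏ k ∈ Finset.univ.erase j, (v j - v k)) / v j ^ (N - 1) := by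
    unfold dz
    have h3 : ∀ k ∈ Finset.univ.erase j, (1 - Complex.exp ((θ k - θ j : ℝ) * Complex.I)) = (v j - v k) / v j := by
      intro k _
      have h4 : Complex.exp ((θ k - θ j : ℝ) * Complex.I) = v k / v j := by
        rw [hv, ← Complex.exp_sub]; congr 1; push_cast; ring
      rw [h4, sub_div, div_self (Complex.exp_ne_zero _)]
    rw [Finset.prod_congr rfl h3, Finset.prod_div_distrib, Finset.prod_const, Finset.card_erase_of_mem (Finset.mem_univ j),
      Finset.card_univ, Fintype.card_fin]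
  rw [h2, one_div_div]

end Pool.Agent.Helper66.RMT
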