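import Mathlib

/-! RMT step 2, block MEAN, part 1: the coefficients of `(1 - z)^(-1/2)`. -/

set_option autoImplicit false

namespace Pool.Agent.Helper11.RMT

open Finset

/-- the coefficients of `(1 - z)^(-1/2)` -/
noncomputable def cb (k : ℕ) : ℝ := (Nat.centralBinom k : ℝ) / 4 ^ k

lemma cb_zero : cb 0 = 1 := by simp [cb]

lemma cb_nonneg (k : ℕ) : 0 ≤ cb k := by unfold cb; positivity

lemma cb_pos (k : ℕ) : 0 < cb k := by
  unfold cb
  have := Nat.centralBinom_pos k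
  positivity

lemma cb_le_one (k : ℕ) : cb k ≤ 1 := by
  unfold cb
  rw [div_le_one (by positivity)]
  exact_mod_cast Nat.centralBinom_le_four_pow k

lemma cb_succ (k : ℕ) : 2 * ((k : ℝ) + 1) * cb (k + 1) = (2 * k + 1) * cb k := by
  have h := Nat.succ_mul_centralBinom_succ k
  have h2 : ((k : ℝ) + 1) * (Nat.centralBinom (k + 1) : ℝ) = 2 * (2 * k + 1) * (Nat.centralBinom k : ℝ) := by
    exact_mod_cast h
  unfold cb
  rw [pow_succ]
  field_simp
  linarith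

lemma cb_conv_succ (n : ℕ) : ∑ ij ∈ antidiagonal (n + 1), cb ij.1 * cb ij.2 =
    ∑ ij ∈ antidiagonal n, cb ij.1 * cb ij.2 := by
  have h1 : ∑ ij ∈ antidiagonal (n + 1), ((n : ℝ) + 1) * (cb ij.1 * cb ij.2) =
      ∑ ij ∈ antidiagonal (n + 1), 2 * ((ij.1 : ℝ) * cb ij.1 * cb ij.2) := by
    have h2 : ∑ ij ∈ antidiagonal (n + 1), (ij.1 : ℝ) * cb ij.1 * cb ij.2 =
        ∑ ij ∈ antidiagonal (n + 1), (ij.2 : ℝ) * cb ij.2 * cb ij.1 := by
      rw [← Finset.Nat.sum_antidiagonal_swap]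
      rfl
    have h3 : ∑ ij ∈ antidiagonal (n + 1), ((n : ℝ) + 1) * (cb ij.1 * cb ij.2) =
        ∑ ij ∈ antidiagonal (n + 1), (ij.1 : ℝ) * cb ij.1 * cb ij.2 +
        ∑ ij ∈ antidiagonal (n + 1), (ij.2 : ℝ) * cb ij.2 * cb ij.1 := by
      rw [← Finset.sum_add_distrib]
      refine Finset.sum_congr rfl fun ij hij => ?_
      rw [Finset.HasAntidiagonal.mem_antidiagonal] at hij
      have : (n : ℝ) + 1 = ij.1 + ij.2 := by exact_mod_cast hij.symm
      rw [this]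
      ring
    rw [h3, ← h2, ← Finset.mul_sum]
    ring
  have h4 : ∑ ij ∈ antidiagonal (n + 1), 2 * ((ij.1 : ℝ) * cb ij.1 * cb ij.2) =
      ∑ ij ∈ antidiagonal n, (2 * (ij.1 : ℝ) + 1) * (cb ij.1 * cb ij.2) := by
    rw [Finset.Nat.sum_antidiagonal_succ]
    simp only [Nat.cast_zero, zero_mul, mul_zero, zero_add]
    refine Finset.sum_congr rfl fun ij _ => ?_
    have := cb_succ ij.1
    push_cast
    linear_combination cb ij.2 * this
  have h5 : ∑ ij ∈ antidiagonal n, (2 * (ij.1 : ℝ) + 1) * (cb ij.1 * cb ij.2) =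
      ∑ ij ∈ antidiagonal n, ((n : ℝ) + 1) * (cb ij.1 * cb ij.2) := by
    have h2 : ∑ ij ∈ antidiagonal n, (ij.1 : ℝ) * cb ij.1 * cb ij.2 =
        ∑ ij ∈ antidiagonal n, (ij.2 : ℝ) * cb ij.2 * cb ij.1 := by
      rw [← Finset.Nat.sum_antidiagonal_swap]
      rfl
    have h6 : ∑ ij ∈ antidiagonal n, (2 * (ij.1 : ℝ) + 1) * (cb ij.1 * cb ij.2) =
        ∑ ij ∈ antidiagonal n, (ij.1 : ℝ) * cb ij.1 * cb ij.2 +
        ∑ ij ∈ antidiagonal n, ((ij.1 : ℝ) * cb ij.1 * cb ij.2 + cb ij.1 * cb ij.2) := by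
      rw [← Finset.sum_add_distrib]
      refine Finset.sum_congr rfl fun ij _ => ?_
      ring
    rw [h6, h2, ← Finset.sum_add_distrib]
    refine Finset.sum_congr rfl fun ij hij => ?_
    rw [Finset.HasAntidiagonal.mem_antidiagonal] at hij
    have : (n : ℝ) = ij.1 + ij.2 := by exact_mod_cast hij.symm
    rw [this]
    ring
  have h7 := h1.trans (h4.trans h5)
  rw [← Finset.mul_sum, ← Finset.mul_sum] at h7
  have h8 : (n : ℝ) + 1 ≠ 0 := by positivity
  exact mul_left_cancel₀ h8 h7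

lemma cb_conv (n : ℕ) : ∑ ij ∈ antidiagonal n, cb ij.1 * cb ij.2 = 1 := by
  induction n with
  | zero => simp [cb_zero]
  | succ n ih => rw [cb_conv_succ, ih]

/-- `(1 - z)^(-1/2)` -/
noncomputable def qq (z : ℂ) : ℂ := ∑' k, (cb k : ℂ) * z ^ k

lemma qq_summable {z : ℂ} (hz : ‖z‖ < 1) : Summable (fun k => ‖(cb k : ℂ) * z ^ k‖) := by
  refine Summable.of_nonneg_of_le (fun _ => norm_nonneg _) (fun k => ?_)
    (summable_geometric_of_lt_one (norm_nonneg z) hz)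
  rw [norm_mul, norm_pow, Complex.norm_real, Real.norm_of_nonneg (cb_nonneg k)]
  have := pow_nonneg (norm_nonneg z) k
  nlinarith [cb_le_one k]

lemma qq_sq {z : ℂ} (hz : ‖z‖ < 1) : qq z ^ 2 = (1 - z)⁻¹ := by
  unfold qq
  rw [sq, tsum_mul_tsum_eq_tsum_sum_antidiagonal_of_summable_norm (qq_summable hz) (qq_summable hz),
    ← tsum_geometric_of_norm_lt_one hz]
  refine tsum_congr fun n => ?_
  have h : ∑ ij ∈ antidiagonal n, (cb ij.1 : ℂ) * z ^ ij.1 * ((cb ij.2 : ℂ) * z ^ ij.2) =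
      (∑ ij ∈ antidiagonal n, (cb ij.1 : ℂ) * (cb ij.2 : ℂ)) * z ^ n := by
    rw [Finset.sum_mul]
    refine Finset.sum_congr rfl fun ij hij => ?_
    rw [Finset.HasAntidiagonal.mem_antidiagonal] at hij
    rw [← hij, pow_add]
    ring
  rw [h]
  have h2 : ∑ ij ∈ antidiagonal n, (cb ij.1 : ℂ) * (cb ij.2 : ℂ) = 1 := by
    have := cb_conv n
    exact_mod_cast this
  rw [h2, one_mul]

end Pool.Agent.Helper11.RMT
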