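import Pool.Agent.Helper11.RMT.MeanZ
import Pool.Agent.Helper95.RMT.WM

/-! RMT step 2, block MEAN: the mean of `|α + β ζ(1 + 2it)|`. -/

set_option autoImplicit false

namespace Pool.Agent.Helper11.RMT

open Finset Filter Topology MeasureTheory

lemma exists_lim (F : ℝ → ℝ) (h : ∀ ε > 0, ∃ m, ∀ᶠ T in atTop, |F T - m| ≤ ε) : ∃ m, Tendsto F atTop (𝓝 m) := by
  have hc : Cauchy (map F atTop) := by
    rw [Metric.cauchy_iff]
    refine ⟨inferInstance, fun ε hε => ?_⟩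
    obtain ⟨m, hm⟩ := h (ε / 3) (by positivity)
    refine ⟨F '' {T | |F T - m| ≤ ε / 3}, image_mem_map hm, ?_⟩
    rintro _ ⟨a, ha, rfl⟩ _ ⟨b, hb, rfl⟩
    have ha' : |F a - m| ≤ ε / 3 := ha
    have hb' : |F b - m| ≤ ε / 3 := hb
    rw [Real.dist_eq]
    have h1 : F a - F b = (F a - m) - (F b - m) := by ring
    rw [h1]
    have := abs_sub (F a - m) (F b - m)
    linarith
  obtain ⟨m, hm⟩ := CompleteSpace.complete hc
  exact ⟨m, hm⟩

/-- `e^{i c t}` -/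
noncomputable def EE (c : ℝ) : ℝ → ℂ := fun t => Complex.exp ((c * t : ℝ) * Complex.I)

/-- the trigonometric polynomials -/
noncomputable def TT : Subalgebra ℂ (ℝ → ℂ) := Algebra.adjoin ℂ (Set.range EE)

lemma EE_mem (c : ℝ) : EE c ∈ TT := Algebra.subset_adjoin ⟨c, rfl⟩

lemma closure_EE {f : ℝ → ℂ} (hf : f ∈ Submonoid.closure (Set.range EE)) : ∃ c, f = EE c := by
  induction hf using Submonoid.closure_induction with
  | mem x hx => obtain ⟨c, rfl⟩ := hx; exact ⟨c, rfl⟩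
  | one => exact ⟨0, by funext t; simp [EE]⟩
  | mul x y _ _ hx hy =>
    obtain ⟨c, rfl⟩ := hx
    obtain ⟨d, rfl⟩ := hy
    refine ⟨c + d, ?_⟩
    funext t
    simp only [EE, Pi.mul_apply]
    rw [← Complex.exp_add]
    congr 1
    push_cast
    ring

lemma TT_mean {f : ℝ → ℂ} (hf : f ∈ TT) : Continuous f ∧ ∃ m : ℂ, Tendsto (fun T : ℝ => (∫ t in (1 : ℝ)..T, f t) / T) atTop (𝓝 m) := by
  have h1 : f ∈ Submodule.span ℂ (Submonoid.closure (Set.range EE) : Set (ℝ → ℂ)) := by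
    rw [← Algebra.adjoin_eq_span]
    exact hf
  induction h1 using Submodule.span_induction with
  | mem x hx =>
    obtain ⟨c, rfl⟩ := closure_EE hx
    refine ⟨by unfold EE; fun_prop, ?_⟩
    by_cases hc : c = 0
    · subst hc
      exact ⟨1, JJ_zero_tendsto⟩
    · exact ⟨0, JJ_tendsto hc⟩
  | zero => exact ⟨continuous_const, 0, by simp⟩
  | add x y hxs hys hx hy =>
    have hx' := hx (by
      have : x ∈ Subalgebra.toSubmodule (Algebra.adjoin ℂ (Set.range EE)) := by rw [Algebra.adjoin_eq_span]; exact hxs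
      exact this)
    have hy' := hy (by
      have : y ∈ Subalgebra.toSubmodule (Algebra.adjoin ℂ (Set.range EE)) := by rw [Algebra.adjoin_eq_span]; exact hys
      exact this)
    obtain ⟨cx, mx, hmx⟩ := hx'
    obtain ⟨cy, my, hmy⟩ := hy'
    refine ⟨cx.add cy, mx + my, (hmx.add hmy).congr fun T => ?_⟩
    rw [← add_div, ← intervalIntegral.integral_add (cx.intervalIntegrable _ _) (cy.intervalIntegrable _ _)]
    rfl
  | smul a x hxs hx =>
    have hx' := hx (by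
      have : x ∈ Subalgebra.toSubmodule (Algebra.adjoin ℂ (Set.range EE)) := by rw [Algebra.adjoin_eq_span]; exact hxs
      exact this)
    obtain ⟨cx, mx, hmx⟩ := hx'
    refine ⟨cx.const_smul a, a * mx, (hmx.const_mul a).congr fun T => ?_⟩
    rw [← mul_div_assoc, ← intervalIntegral.integral_const_mul]
    rfl

/-- the mean of the absolute value of a trigonometric polynomial -/
lemma abs_mean {p q : ℝ → ℂ} (hp : p ∈ TT) (hq : q ∈ TT) (hpq : ∀ t, q t = (starRingEnd ℂ) (p t)) {R : ℝ} (hR : ∀ t, ‖p t‖ ≤ R) :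
    ∃ m : ℝ, Tendsto (fun T : ℝ => (∫ t in (1 : ℝ)..T, ‖p t‖) / T) atTop (𝓝 m) := by
  apply exists_lim
  intro ε hε
  have hR0 : 0 ≤ R := (norm_nonneg _).trans (hR 0)
  obtain ⟨r, hr⟩ := exists_polynomial_near_of_continuousOn 0 (R ^ 2) Real.sqrt Real.continuous_sqrt.continuousOn (ε / 2) (by positivity)
  have hcp := (TT_mean hp).1
  -- the polynomial of |p|^2
  have hmem : (fun t => ((r.eval (‖p t‖ ^ 2) : ℝ) : ℂ)) ∈ TT := by
    have h1 : (fun t => ((r.eval (‖p t‖ ^ 2) : ℝ) : ℂ)) = ∑ k ∈ range (r.natDegree + 1), ((r.coeff k : ℝ) : ℂ) • (p * q) ^ k := by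
      funext t
      rw [Finset.sum_apply, Polynomial.eval_eq_sum_range]
      push_cast
      refine Finset.sum_congr rfl fun k _ => ?_
      simp only [Pi.smul_apply, Pi.pow_apply, Pi.mul_apply, smul_eq_mul]
      rw [hpq, Complex.mul_conj, Complex.normSq_eq_norm_sq]
      push_cast
      ring
    rw [h1]
    exact sum_mem fun k _ => Subalgebra.smul_mem _ (pow_mem (mul_mem hp hq) k) _
  obtain ⟨hcr, m, hm⟩ := TT_mean hmem
  refine ⟨m.re, ?_⟩
  have hm2 := (Complex.continuous_re.tendsto _).comp hm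
  have hm3 := (Metric.tendsto_nhds.1 hm2) (ε / 2) (by positivity)
  filter_upwards [hm3, eventually_ge_atTop (1 : ℝ)] with T hT hT1
  have hT0 : 0 < T := by linarith
  have h2 : ((fun T : ℝ => Complex.re ((∫ t in (1 : ℝ)..T, ((r.eval (‖p t‖ ^ 2) : ℝ) : ℂ)) / T)) T) =
      (∫ t in (1 : ℝ)..T, r.eval (‖p t‖ ^ 2)) / T := by
    simp only
    rw [intervalIntegral.integral_ofReal, ← Complex.ofReal_div, Complex.ofReal_re]
  have hT' : |(∫ t in (1 : ℝ)..T, r.eval (‖p t‖ ^ 2)) / T - m.re| < ε / 2 := by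
    rw [← h2, ← Real.dist_eq]
    exact hT
  have hrc : Continuous fun t => r.eval (‖p t‖ ^ 2) := r.continuous.comp (hcp.norm.pow 2)
  have h3 : |(∫ t in (1 : ℝ)..T, ‖p t‖) - ∫ t in (1 : ℝ)..T, r.eval (‖p t‖ ^ 2)| ≤ ε / 2 * (T - 1) := by
    rw [← intervalIntegral.integral_sub (hcp.norm.intervalIntegrable _ _) (hrc.intervalIntegrable _ _), ← Real.norm_eq_abs]
    refine (intervalIntegral.norm_integral_le_of_norm_le_const (C := ε / 2) fun t _ => ?_).trans ?_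
    · have h4 := hr (‖p t‖ ^ 2) ⟨by positivity, pow_le_pow_left₀ (norm_nonneg _) (hR t) 2⟩
      rw [Real.sqrt_sq (norm_nonneg _), abs_sub_comm] at h4
      rw [Real.norm_eq_abs]
      exact h4.le
    · rw [abs_of_nonneg (by linarith)]
  have h5 : |(∫ t in (1 : ℝ)..T, ‖p t‖) / T - (∫ t in (1 : ℝ)..T, r.eval (‖p t‖ ^ 2)) / T| ≤ ε / 2 := by
    rw [← sub_div, abs_div, abs_of_pos hT0, div_le_iff₀ hT0]
    refine h3.trans ?_
    have : ε / 2 * (T - 1) ≤ ε / 2 * T := mul_le_mul_of_nonneg_left (by linarith) (by positivity)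
    exact this
  have h6 := abs_add_le ((∫ t in (1 : ℝ)..T, ‖p t‖) / T - (∫ t in (1 : ℝ)..T, r.eval (‖p t‖ ^ 2)) / T)
    ((∫ t in (1 : ℝ)..T, r.eval (‖p t‖ ^ 2)) / T - m.re)
  have h7 : (∫ t in (1 : ℝ)..T, ‖p t‖) / T - (∫ t in (1 : ℝ)..T, r.eval (‖p t‖ ^ 2)) / T +
    ((∫ t in (1 : ℝ)..T, r.eval (‖p t‖ ^ 2)) / T - m.re) = (∫ t in (1 : ℝ)..T, ‖p t‖) / T - m.re := by ring
  rw [h7] at h6
  linarith

lemma abs_mean_fin (α β : ℝ) {F : Finset ℕ} (hF : ∀ n ∈ F, 1 ≤ n) :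
    ∃ m : ℝ, Tendsto (fun T : ℝ => (∫ t in (1 : ℝ)..T, ‖(α : ℂ) + β * ∑ n ∈ F, tw t n‖) / T) atTop (𝓝 m) := by
  have hone : ∀ z : ℂ, (fun _ : ℝ => z) ∈ TT := by
    intro z
    have h := Subalgebra.smul_mem TT (one_mem TT) z
    have e : (fun _ : ℝ => z) = z • (1 : ℝ → ℂ) := by funext t; simp
    rw [e]
    exact h
  refine abs_mean (p := fun t => (α : ℂ) + β * ∑ n ∈ F, tw t n)
    (q := fun t => (α : ℂ) + β * ∑ n ∈ F, ((1 / n : ℝ) : ℂ) * EE (2 * Real.log n) t) ?_ ?_ ?_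
    (R := |α| + |β| * ∑ n ∈ F, (1 : ℝ) / n) ?_
  · have e : (fun t => (α : ℂ) + β * ∑ n ∈ F, tw t n) =
        (fun _ : ℝ => (α : ℂ)) + (β : ℂ) • ∑ n ∈ F, ((1 / n : ℝ) : ℂ) • EE (-(2 * Real.log n)) := by
      funext t
      simp only [Pi.add_apply, Pi.smul_apply, Finset.sum_apply, smul_eq_mul]
      congr 2
      exact Finset.sum_congr rfl fun n hn => tw_eq (hF n hn) t
    rw [e]
    exact add_mem (hone _) (Subalgebra.smul_mem _ (sum_mem fun n _ => Subalgebra.smul_mem _ (EE_mem _) _) _)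
  · have e : (fun t => (α : ℂ) + β * ∑ n ∈ F, ((1 / n : ℝ) : ℂ) * EE (2 * Real.log n) t) =
        (fun _ : ℝ => (α : ℂ)) + (β : ℂ) • ∑ n ∈ F, ((1 / n : ℝ) : ℂ) • EE (2 * Real.log n) := by
      funext t
      simp only [Pi.add_apply, Pi.smul_apply, Finset.sum_apply, smul_eq_mul]
    rw [e]
    exact add_mem (hone _) (Subalgebra.smul_mem _ (sum_mem fun n _ => Subalgebra.smul_mem _ (EE_mem _) _) _)
  · intro t
    rw [map_add, map_mul, Complex.conj_ofReal, Complex.conj_ofReal, map_sum]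
    congr 2
    refine Finset.sum_congr rfl fun n hn => ?_
    rw [tw_eq (hF n hn), map_mul, Complex.conj_ofReal, ← Complex.exp_conj, map_mul, Complex.conj_ofReal, Complex.conj_I]
    unfold EE
    congr 2
    push_cast
    ring
  · intro t
    refine (norm_add_le _ _).trans ?_
    rw [norm_mul, Complex.norm_real, Complex.norm_real, Real.norm_eq_abs, Real.norm_eq_abs]
    have h1 : ‖∑ n ∈ F, tw t n‖ ≤ ∑ n ∈ F, (1 : ℝ) / n := by
      refine (norm_sum_le _ _).trans (le_of_eq ?_)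
      exact Finset.sum_congr rfl fun n _ => tw_norm t n
    have := mul_le_mul_of_nonneg_left h1 (abs_nonneg β)
    linarith

theorem mean_ab (α β : ℝ) : ∃ m : ℝ,
    Tendsto (fun T : ℝ => (∫ t in (1 : ℝ)..T, ‖(α : ℂ) + β * zl t‖) / T) atTop (𝓝 m) := by
  apply exists_lim
  intro ε hε
  obtain ⟨e, he⟩ : ∃ e : ℝ, e = ε / (4 * (|β| + 1)) := ⟨_, rfl⟩
  have hb1 : 0 < |β| + 1 := by positivity
  have he0 : 0 < e := by rw [he]; positivity
  have heb : |β| * (2 * e) ≤ ε / 2 := by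
    have h1 : (|β| + 1) * (2 * e) = ε / 2 := by rw [he]; field_simp; ring
    nlinarith
  obtain ⟨y, hy⟩ := main_approx he0
  have hy' := hy y le_rfl
  obtain ⟨F, _, hF2, hF3⟩ := Py_tail y he0
  obtain ⟨m, hm⟩ := abs_mean_fin α β hF2
  refine ⟨m, ?_⟩
  have hm2 := (Metric.tendsto_nhds.1 hm) (ε / 2) (by positivity)
  filter_upwards [hy', hm2, eventually_ge_atTop (1 : ℝ)] with T hT hT2 hT1
  have hT0 : 0 < T := by linarith
  have hzc : ContinuousOn (fun t => ‖(α : ℂ) + β * zl t‖) (Set.uIcc 1 T) := by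
    rw [Set.uIcc_of_le hT1]
    refine ContinuousOn.norm (continuousOn_const.add (continuousOn_const.mul (zl_continuousOn.mono fun t ht => ?_)))
    exact lt_of_lt_of_le one_pos ht.1
  have hzd : ContinuousOn (fun t => ‖zl t - Py y t‖) (Set.uIcc 1 T) := by
    rw [Set.uIcc_of_le hT1]
    refine ContinuousOn.norm (ContinuousOn.sub (zl_continuousOn.mono fun t ht => ?_) (Py_continuous y).continuousOn)
    exact lt_of_lt_of_le one_pos ht.1
  have hFc : Continuous fun t => ‖(α : ℂ) + β * ∑ n ∈ F, tw t n‖ := by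
    refine (continuous_const.add (continuous_const.mul ?_)).norm
    exact continuous_finsetSum _ fun n hn => tw_continuous (hF2 n hn)
  have h4 : |(∫ t in (1 : ℝ)..T, ‖(α : ℂ) + β * zl t‖) - ∫ t in (1 : ℝ)..T, ‖(α : ℂ) + β * ∑ n ∈ F, tw t n‖| ≤
      |β| * (∫ t in (1 : ℝ)..T, ‖zl t - Py y t‖) + |β| * e * (T - 1) := by
    rw [← intervalIntegral.integral_sub hzc.intervalIntegrable (hFc.intervalIntegrable _ _)]
    refine (intervalIntegral.abs_integral_le_integral_abs hT1).trans ?_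
    have h5 : ∫ t in (1 : ℝ)..T, |‖(α : ℂ) + β * zl t‖ - ‖(α : ℂ) + β * ∑ n ∈ F, tw t n‖| ≤
        ∫ t in (1 : ℝ)..T, (|β| * ‖zl t - Py y t‖ + |β| * e) := by
      refine intervalIntegral.integral_mono_on hT1 (hzc.sub hFc.continuousOn).abs.intervalIntegrable
        ((hzd.intervalIntegrable.const_mul _).add intervalIntegrable_const) fun t _ => ?_
      refine (abs_norm_sub_norm_le _ _).trans ?_
      have h6 : (α : ℂ) + β * zl t - ((α : ℂ) + β * ∑ n ∈ F, tw t n) = β * ((zl t - Py y t) + (Py y t - ∑ n ∈ F, tw t n)) := by ring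
      rw [h6, norm_mul, Complex.norm_real, Real.norm_eq_abs, ← mul_add]
      apply mul_le_mul_of_nonneg_left _ (abs_nonneg β)
      exact (norm_add_le _ _).trans (add_le_add le_rfl (hF3 t))
    refine h5.trans (le_of_eq ?_)
    rw [intervalIntegral.integral_add (hzd.intervalIntegrable.const_mul _) intervalIntegrable_const,
      intervalIntegral.integral_const_mul, intervalIntegral.integral_const, smul_eq_mul]
    ring
  have h5 : |(∫ t in (1 : ℝ)..T, ‖(α : ℂ) + β * zl t‖) / T - (∫ t in (1 : ℝ)..T, ‖(α : ℂ) + β * ∑ n ∈ F, tw t n‖) / T| ≤ ε / 2 := by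
    rw [← sub_div, abs_div, abs_of_pos hT0, div_le_iff₀ hT0]
    rw [div_le_iff₀ hT0] at hT
    have h6 := mul_le_mul_of_nonneg_left hT (abs_nonneg β)
    have h7 : |β| * e * (T - 1) ≤ |β| * e * T := mul_le_mul_of_nonneg_left (by linarith) (by positivity)
    have h8 := mul_le_mul_of_nonneg_right heb hT0.le
    have h9 : |β| * (2 * e) * T = |β| * (e * T) + |β| * e * T := by ring
    linarith
  rw [Real.dist_eq] at hT2
  have h6 := abs_add_le ((∫ t in (1 : ℝ)..T, ‖(α : ℂ) + β * zl t‖) / T - (∫ t in (1 : ℝ)..T, ‖(α : ℂ) + β * ∑ n ∈ F, tw t n‖) / T)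
    ((∫ t in (1 : ℝ)..T, ‖(α : ℂ) + β * ∑ n ∈ F, tw t n‖) / T - m)
  have h7 : (∫ t in (1 : ℝ)..T, ‖(α : ℂ) + β * zl t‖) / T - (∫ t in (1 : ℝ)..T, ‖(α : ℂ) + β * ∑ n ∈ F, tw t n‖) / T +
    ((∫ t in (1 : ℝ)..T, ‖(α : ℂ) + β * ∑ n ∈ F, tw t n‖) / T - m) = (∫ t in (1 : ℝ)..T, ‖(α : ℂ) + β * zl t‖) / T - m := by ring
  rw [h7] at h6
  linarith

/-- the weight of `α M + β L` -/
noncomputable def bAB (α β t : ℝ) : ℂ := ((α : ℂ) + β * riemannZeta (1 + 2 * t * Complex.I)) * Pool.Agent.Helper95.KS.bM t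

lemma bAB_near (α β : ℝ) {t : ℝ} (ht : 1 ≤ t) :
    |t * ‖bAB α β t‖ - ‖(α : ℂ) + β * zl t‖| ≤ (|α| + 8 * |β|) * t ^ (-(1 / 2) : ℝ) := by
  have ht0 : 0 < t := by linarith
  obtain ⟨h1, h2⟩ := half_norm ht
  have h3 : 0 < ‖(1 / 2 + (t : ℂ) * Complex.I)‖ := by linarith
  have h4 := zl_le ht
  have hs1 : 1 ≤ Real.sqrt t := Real.one_le_sqrt.2 ht
  have h10 : ‖(α : ℂ) + β * zl t‖ ≤ (|α| + 8 * |β|) * Real.sqrt t := by
    refine (norm_add_le _ _).trans ?_
    rw [norm_mul, Complex.norm_real, Complex.norm_real, Real.norm_eq_abs, Real.norm_eq_abs]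
    have h11 := mul_le_mul_of_nonneg_left h4 (abs_nonneg β)
    have h12 := mul_le_mul_of_nonneg_left hs1 (abs_nonneg α)
    linarith
  have h5 : ‖bAB α β t‖ = ‖(α : ℂ) + β * zl t‖ / ‖(1 / 2 + (t : ℂ) * Complex.I)‖ := by
    unfold bAB zl Pool.Agent.Helper95.KS.bM
    rw [mul_one_div, norm_div]
  have h6 : t * ‖bAB α β t‖ - ‖(α : ℂ) + β * zl t‖ =
      -(‖(α : ℂ) + β * zl t‖ * ((‖(1 / 2 + (t : ℂ) * Complex.I)‖ - t) / ‖(1 / 2 + (t : ℂ) * Complex.I)‖)) := by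
    rw [h5]
    have h7 : ‖(1 / 2 + (t : ℂ) * Complex.I)‖ ≠ 0 := h3.ne'
    generalize ‖(1 / 2 + (t : ℂ) * Complex.I)‖ = A at h7
    field_simp
    ring
  have h7 : (‖(1 / 2 + (t : ℂ) * Complex.I)‖ - t) / ‖(1 / 2 + (t : ℂ) * Complex.I)‖ ≤ 1 / t := by
    rw [div_le_div_iff₀ h3 ht0]
    nlinarith
  have h8 : 0 ≤ (‖(1 / 2 + (t : ℂ) * Complex.I)‖ - t) / ‖(1 / 2 + (t : ℂ) * Complex.I)‖ :=
    div_nonneg (by linarith) h3.le
  rw [h6, abs_neg, abs_of_nonneg (mul_nonneg (norm_nonneg _) h8)]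
  have h9 : t ^ (-(1 / 2) : ℝ) = Real.sqrt t / t := by
    rw [Real.sqrt_eq_rpow, Real.rpow_neg ht0.le, ← Real.rpow_sub_one ht0.ne', ← Real.rpow_neg ht0.le]
    norm_num
  rw [h9]
  calc ‖(α : ℂ) + β * zl t‖ * ((‖(1 / 2 + (t : ℂ) * Complex.I)‖ - t) / ‖(1 / 2 + (t : ℂ) * Complex.I)‖)
      ≤ ((|α| + 8 * |β|) * Real.sqrt t) * (1 / t) := mul_le_mul h10 h7 h8 (by positivity)
    _ = (|α| + 8 * |β|) * (Real.sqrt t / t) := by ring

theorem mean_bAB {α β m : ℝ} (hm : Tendsto (fun T : ℝ => (∫ t in (1 : ℝ)..T, ‖(α : ℂ) + β * zl t‖) / T) atTop (𝓝 m)) :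
    Tendsto (fun T : ℝ => (∫ t in (1 : ℝ)..T, t * ‖bAB α β t‖) / T) atTop (𝓝 m) := by
  have hzero : Tendsto (fun T : ℝ => (∫ t in (1 : ℝ)..T, (t * ‖bAB α β t‖ - ‖(α : ℂ) + β * zl t‖)) / T) atTop (𝓝 0) := by
    obtain ⟨A, hA⟩ : ∃ A, A = |α| + 8 * |β| := ⟨_, rfl⟩
    have hA0 : 0 ≤ A := by rw [hA]; positivity
    have hb : ∀ᶠ T : ℝ in atTop, ‖(∫ t in (1 : ℝ)..T, (t * ‖bAB α β t‖ - ‖(α : ℂ) + β * zl t‖)) / T‖ ≤
        (2 * A) * T ^ (-(1 / 2) : ℝ) := by
      filter_upwards [eventually_ge_atTop (1 : ℝ)] with T hT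
      have hT0 : 0 < T := by linarith
      have h1 : ‖∫ t in (1 : ℝ)..T, (t * ‖bAB α β t‖ - ‖(α : ℂ) + β * zl t‖)‖ ≤ ∫ t in (1 : ℝ)..T, A * t ^ (-(1 / 2) : ℝ) := by
        refine intervalIntegral.norm_integral_le_of_norm_le hT (Filter.Eventually.of_forall fun t ht => ?_) ?_
        · rw [Real.norm_eq_abs, hA]
          exact bAB_near α β ht.1.le
        · exact (intervalIntegral.intervalIntegrable_rpow' (by norm_num)).const_mul A
      rw [intervalIntegral.integral_const_mul, integral_rpow (Or.inl (by norm_num))] at h1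
      have h2 : (-(1 / 2) : ℝ) + 1 = 1 / 2 := by norm_num
      rw [h2, Real.one_rpow] at h1
      rw [norm_div, Real.norm_of_nonneg hT0.le, div_le_iff₀ hT0]
      have h3 : T ^ (-(1 / 2) : ℝ) * T = T ^ (1 / 2 : ℝ) := by
        rw [← Real.rpow_add_one hT0.ne']; norm_num
      rw [mul_assoc, h3]
      refine h1.trans ?_
      have h5 : A * ((T ^ (1 / 2 : ℝ) - 1) / (1 / 2)) = 2 * A * T ^ (1 / 2 : ℝ) - 2 * A := by ring
      linarith
    refine squeeze_zero_norm' hb ?_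
    have := (tendsto_rpow_neg_atTop (by norm_num : (0 : ℝ) < 1 / 2)).const_mul (2 * A)
    rw [mul_zero] at this
    exact this
  have hsum := hm.add hzero
  rw [add_zero] at hsum
  refine hsum.congr' ?_
  filter_upwards [eventually_ge_atTop (1 : ℝ)] with T hT
  have hpos : ∀ t ∈ Set.uIcc 1 T, 0 < t := by
    intro t ht
    rw [Set.uIcc_of_le hT] at ht
    exact lt_of_lt_of_le one_pos ht.1
  have hzl : ContinuousOn zl (Set.uIcc 1 T) := zl_continuousOn.mono fun t ht => hpos t ht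
  have hzc : ContinuousOn (fun t => ‖(α : ℂ) + β * zl t‖) (Set.uIcc 1 T) :=
    ContinuousOn.norm (continuousOn_const.add (continuousOn_const.mul hzl))
  have hbc : ContinuousOn (fun t => t * ‖bAB α β t‖) (Set.uIcc 1 T) := by
    refine continuousOn_id.mul (ContinuousOn.norm ?_)
    exact (continuousOn_const.add (continuousOn_const.mul hzl)).mul Pool.Agent.Helper95.KS.bM_cont.continuousOn
  rw [← add_div, intervalIntegral.integral_sub hbc.intervalIntegrable hzc.intervalIntegrable]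
  congr 1
  ring

/-- all means at once -/
theorem mean_all : ∃ m : ℝ → ℝ → ℝ, (∀ α β : ℝ,
    Tendsto (fun T : ℝ => (∫ t in (1 : ℝ)..T, ‖(α : ℂ) + β * riemannZeta (1 + 2 * t * Complex.I)‖) / T) atTop (𝓝 (m α β)) ∧
    Tendsto (fun T : ℝ => (∫ t in (1 : ℝ)..T, t * ‖((α : ℂ) + β * riemannZeta (1 + 2 * t * Complex.I)) *
      Pool.Agent.Helper95.KS.bM t‖) / T) atTop (𝓝 (m α β))) ∧ m 0 1 = mz := by
  choose m hm using mean_ab
  refine ⟨m, fun α β => ⟨hm α β, mean_bAB (hm α β)⟩, ?_⟩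
  refine tendsto_nhds_unique (hm 0 1) (mean_zl.congr fun T => ?_)
  simp

end Pool.Agent.Helper11.RMT
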