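import Mathlib

/-! RMT step 2, block MEAN, part 2: the mean square of an absolutely convergent exponential series. -/

set_option autoImplicit false

namespace Pool.Agent.Helper11.RMT

open Finset Filter Topology MeasureTheory

/-- the mean of `e^{ict}` over `[1, T]` -/
noncomputable def JJ (c T : ℝ) : ℂ := (∫ t in (1 : ℝ)..T, Complex.exp ((c * t : ℝ) * Complex.I)) / T

lemma JJ_norm_le (c : ℝ) {T : ℝ} (hT : 1 ≤ T) : ‖JJ c T‖ ≤ 1 := by
  unfold JJ
  have hT0 : 0 < T := by linarith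
  rw [norm_div, Complex.norm_real, Real.norm_of_nonneg hT0.le, div_le_one hT0]
  refine (intervalIntegral.norm_integral_le_of_norm_le_const (C := 1) fun t _ => ?_).trans ?_
  · rw [Complex.norm_exp_ofReal_mul_I]
  · rw [abs_of_nonneg (by linarith)]
    linarith

lemma JJ_zero_tendsto : Tendsto (fun T : ℝ => JJ 0 T) atTop (𝓝 1) := by
  have h1 : ∀ᶠ T : ℝ in atTop, 1 - ((1 / T : ℝ) : ℂ) = JJ 0 T := by
    filter_upwards [eventually_ge_atTop (1 : ℝ)] with T hT
    unfold JJ
    have hT0 : (T : ℂ) ≠ 0 := by exact_mod_cast (by linarith : T ≠ 0)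
    simp only [zero_mul, Complex.ofReal_zero, Complex.exp_zero, intervalIntegral.integral_const]
    rw [Complex.real_smul, mul_one]
    push_cast
    field_simp
  refine Tendsto.congr' h1 ?_
  have h2 : Tendsto (fun T : ℝ => ((1 / T : ℝ) : ℂ)) atTop (𝓝 0) := by
    have h3 : Tendsto (fun T : ℝ => 1 / T) atTop (𝓝 0) := by
      simpa using tendsto_inv_atTop_zero
    have := (Complex.continuous_ofReal.tendsto 0).comp h3
    rw [Complex.ofReal_zero] at this
    exact this
  simpa using h2.const_sub 1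

lemma JJ_tendsto {c : ℝ} (hc : c ≠ 0) : Tendsto (fun T : ℝ => JJ c T) atTop (𝓝 0) := by
  rw [tendsto_zero_iff_norm_tendsto_zero]
  have h1 : ∀ᶠ T : ℝ in atTop, ‖JJ c T‖ ≤ 2 / |c| * (1 / T) := by
    filter_upwards [eventually_ge_atTop (1 : ℝ)] with T hT
    have hT0 : 0 < T := by linarith
    unfold JJ
    have hcI : ((c : ℂ) * Complex.I) ≠ 0 := mul_ne_zero (by exact_mod_cast hc) Complex.I_ne_zero
    have h2 : ∀ t : ℝ, Complex.exp ((c * t : ℝ) * Complex.I) = Complex.exp ((c * Complex.I) * t) := by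
      intro t; congr 1; push_cast; ring
    simp only [h2]
    rw [integral_exp_mul_complex hcI, norm_div, Complex.norm_real, Real.norm_of_nonneg hT0.le, norm_div]
    have h3 : ‖Complex.exp ((c * Complex.I) * T) - Complex.exp ((c * Complex.I) * (1 : ℝ))‖ ≤ 2 := by
      refine (norm_sub_le _ _).trans ?_
      rw [← h2, ← h2, Complex.norm_exp_ofReal_mul_I, Complex.norm_exp_ofReal_mul_I]
      norm_num
    have h4 : ‖(c : ℂ) * Complex.I‖ = |c| := by
      rw [norm_mul, Complex.norm_I, mul_one, Complex.norm_real, Real.norm_eq_abs]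
    rw [h4]
    have hc0 : 0 < |c| := abs_pos.2 hc
    rw [mul_one_div]
    gcongr
  refine squeeze_zero' (Eventually.of_forall fun _ => norm_nonneg _) h1 ?_
  have h3 : Tendsto (fun T : ℝ => 1 / T) atTop (𝓝 0) := by
    simpa using tendsto_inv_atTop_zero
  simpa using h3.const_mul (2 / |c|)

theorem mean_sq {ι : Type*} [Countable ι] (a : ι → ℝ) (ha : Summable a) (h0 : ∀ i, 0 ≤ a i) (l : ι → ℝ)
    (hl : Function.Injective l) :
    Tendsto (fun T : ℝ => (∫ t in (1 : ℝ)..T, ‖∑' i, (a i : ℂ) * Complex.exp ((l i * t : ℝ) * Complex.I)‖ ^ 2) / T)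
      atTop (𝓝 (∑' i, a i ^ 2)) := by
  classical
  -- summability
  have hn : ∀ t : ℝ, ∀ i, ‖(a i : ℂ) * Complex.exp ((l i * t : ℝ) * Complex.I)‖ = a i := by
    intro t i
    rw [norm_mul, Complex.norm_exp_ofReal_mul_I, mul_one, Complex.norm_real, Real.norm_of_nonneg (h0 i)]
  have hs : ∀ t : ℝ, Summable fun i => ‖(a i : ℂ) * Complex.exp ((l i * t : ℝ) * Complex.I)‖ := by
    intro t; simp only [hn]; exact ha
  have haa : Summable fun p : ι × ι => a p.1 * a p.2 :=
    ha.mul_of_nonneg ha h0 h0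
  -- the functions
  let g : ι × ι → C(ℝ, ℂ) := fun p => ⟨fun t => ((a p.1 * a p.2 : ℝ) : ℂ) *
    Complex.exp (((l p.1 - l p.2) * t : ℝ) * Complex.I), by fun_prop⟩
  have hg : ∀ p t, ‖g p t‖ = a p.1 * a p.2 := by
    intro p t
    change ‖((a p.1 * a p.2 : ℝ) : ℂ) * Complex.exp (((l p.1 - l p.2) * t : ℝ) * Complex.I)‖ = _
    rw [norm_mul, Complex.norm_exp_ofReal_mul_I, mul_one, Complex.norm_real,
      Real.norm_of_nonneg (mul_nonneg (h0 _) (h0 _))]
  have hsq : ∀ t : ℝ, ((‖∑' i, (a i : ℂ) * Complex.exp ((l i * t : ℝ) * Complex.I)‖ ^ 2 : ℝ) : ℂ) = ∑' p, g p t := by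
    intro t
    have h1 : ∀ z : ℂ, ((‖z‖ ^ 2 : ℝ) : ℂ) = z * (starRingEnd ℂ) z := by
      intro z
      rw [Complex.mul_conj, Complex.normSq_eq_norm_sq]
    rw [h1, Complex.conj_tsum, tsum_mul_tsum_of_summable_norm (hs t) (by
      simpa only [RCLike.norm_conj] using hs t)]
    refine tsum_congr fun p => ?_
    change _ = ((a p.1 * a p.2 : ℝ) : ℂ) * Complex.exp (((l p.1 - l p.2) * t : ℝ) * Complex.I)
    rw [map_mul, Complex.conj_ofReal, ← Complex.exp_conj, map_mul, Complex.conj_ofReal, Complex.conj_I]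
    have h2 : Complex.exp ((((l p.1 - l p.2) * t : ℝ) : ℂ) * Complex.I) =
        Complex.exp (((l p.1 * t : ℝ) : ℂ) * Complex.I) * Complex.exp (((l p.2 * t : ℝ) : ℂ) * -Complex.I) := by
      rw [← Complex.exp_add]
      congr 1
      push_cast
      ring
    rw [h2]
    push_cast
    ring
  have hint : ∀ T : ℝ, 1 ≤ T →
      (((∫ t in (1 : ℝ)..T, ‖∑' i, (a i : ℂ) * Complex.exp ((l i * t : ℝ) * Complex.I)‖ ^ 2) / T : ℝ) : ℂ) =
        ∑' p : ι × ι, ((a p.1 * a p.2 : ℝ) : ℂ) * JJ (l p.1 - l p.2) T := by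
    intro T hT
    rw [Complex.ofReal_div, ← intervalIntegral.integral_ofReal]
    have h3 : (∫ t in (1 : ℝ)..T, ((‖∑' i, (a i : ℂ) * Complex.exp ((l i * t : ℝ) * Complex.I)‖ ^ 2 : ℝ) : ℂ)) =
        ∫ t in (1 : ℝ)..T, ∑' p, g p t := by
      refine intervalIntegral.integral_congr fun t _ => ?_
      exact hsq t
    rw [h3, ← intervalIntegral.tsum_intervalIntegral_eq_of_summable_norm, ← tsum_div_const]
    · refine tsum_congr fun p => ?_
      change (∫ t in (1 : ℝ)..T, ((a p.1 * a p.2 : ℝ) : ℂ) * Complex.exp (((l p.1 - l p.2) * t : ℝ) * Complex.I)) / T = _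
      rw [intervalIntegral.integral_const_mul, JJ, mul_div_assoc]
    · refine Summable.of_nonneg_of_le (fun _ => norm_nonneg _) (fun p => ?_) haa
      refine (ContinuousMap.norm_le _ (mul_nonneg (h0 _) (h0 _))).2 fun t => ?_
      exact (hg p t).le
  have hlim : Tendsto (fun T : ℝ => ∑' p : ι × ι, ((a p.1 * a p.2 : ℝ) : ℂ) * JJ (l p.1 - l p.2) T) atTop
      (𝓝 (∑' p : ι × ι, if p.1 = p.2 then ((a p.1 ^ 2 : ℝ) : ℂ) else 0)) := by
    refine tendsto_tsum_of_dominated_convergence haa (fun p => ?_) ?_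
    · by_cases hp : p.1 = p.2
      · rw [if_pos hp, ← hp, sub_self]
        have := JJ_zero_tendsto.const_mul (((a p.1 * a p.1 : ℝ) : ℂ))
        rw [mul_one] at this
        rw [sq]
        exact this
      · rw [if_neg hp]
        have := (JJ_tendsto (c := l p.1 - l p.2) (sub_ne_zero.2 fun h => hp (hl h))).const_mul (((a p.1 * a p.2 : ℝ) : ℂ))
        rw [mul_zero] at this
        exact this
    · filter_upwards [eventually_ge_atTop (1 : ℝ)] with T hT p
      rw [norm_mul, Complex.norm_real, Real.norm_of_nonneg (mul_nonneg (h0 _) (h0 _))]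
      have := mul_le_mul_of_nonneg_left (JJ_norm_le (l p.1 - l p.2) hT) (mul_nonneg (h0 p.1) (h0 p.2))
      linarith
  have hdiag : (∑' p : ι × ι, if p.1 = p.2 then ((a p.1 ^ 2 : ℝ) : ℂ) else 0) = ((∑' i, a i ^ 2 : ℝ) : ℂ) := by
    have hinj : Function.Injective (fun i : ι => (i, i)) := fun i j h => (Prod.mk.inj h).1
    have h4 := Function.Injective.tsum_eq hinj (f := fun p : ι × ι => if p.1 = p.2 then ((a p.1 ^ 2 : ℝ) : ℂ) else 0) (by
      rintro ⟨i, j⟩ hij
      rw [Function.mem_support] at hij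
      by_cases h : i = j
      · exact ⟨i, by rw [h]⟩
      · exact absurd (if_neg h) hij)
    rw [← h4, Complex.ofReal_tsum]
    refine tsum_congr fun i => ?_
    simp
  rw [hdiag] at hlim
  have h5 : Tendsto (fun T : ℝ => (((∫ t in (1 : ℝ)..T, ‖∑' i, (a i : ℂ) *
      Complex.exp ((l i * t : ℝ) * Complex.I)‖ ^ 2) / T : ℝ) : ℂ)) atTop (𝓝 ((∑' i, a i ^ 2 : ℝ) : ℂ)) := by
    refine Tendsto.congr' ?_ hlim
    filter_upwards [eventually_ge_atTop (1 : ℝ)] with T hT
    exact (hint T hT).symm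
  have h6 := (Complex.continuous_re.tendsto _).comp h5
  rw [Complex.ofReal_re] at h6
  exact h6

end Pool.Agent.Helper11.RMT
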