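import Pool.Agent.Helper11.RMT.MsFin
import Pool.Agent.Helper96.RMT.ZApp
import Pool.Agent.Helper66.RMT.DefsW

/-! RMT step 2, block MEAN: the mean of `|ζ(1 + 2it)|`. -/

set_option autoImplicit false

namespace Pool.Agent.Helper11.RMT

open Finset Filter Topology MeasureTheory

/-- `ζ(1 + 2 i t)` -/
noncomputable def zl (t : ℝ) : ℂ := riemannZeta (1 + 2 * t * Complex.I)

lemma s_ne {t : ℝ} (ht : t ≠ 0) : (1 + 2 * (t : ℂ) * Complex.I) ≠ 1 := by
  intro h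
  have := congrArg Complex.im h
  simp at this
  exact ht this

lemma s_sub (t : ℝ) : (1 + 2 * (t : ℂ) * Complex.I) - 1 = 2 * t * Complex.I := by ring

lemma norm_s_le {t : ℝ} (ht : 1 ≤ t) : ‖(1 + 2 * (t : ℂ) * Complex.I)‖ ≤ 3 * t := by
  refine (norm_add_le _ _).trans ?_
  rw [norm_mul, norm_mul, Complex.norm_I, Complex.norm_real, Real.norm_of_nonneg (by linarith)]
  norm_num
  linarith

lemma zl_continuousOn : ContinuousOn zl (Set.Ioi 0) := by
  intro t ht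
  apply ContinuousAt.continuousWithinAt
  have h1 : ContinuousAt riemannZeta (1 + 2 * (t : ℂ) * Complex.I) :=
    (differentiableAt_riemannZeta (s_ne (ne_of_gt ht))).continuousAt
  exact ContinuousAt.comp (f := fun t : ℝ => (1 + 2 * (t : ℂ) * Complex.I)) (g := riemannZeta) h1
    (Continuous.continuousAt (by fun_prop))

lemma zl_app {t : ℝ} (ht : 1 ≤ t) {M : ℕ} (hM : 1 ≤ M) :
    ‖zl t - ∑ m ∈ Icc 1 M, tw t m‖ ≤ 1 / (2 * t) + 3 * t / M := by
  have ht0 : 0 < t := by linarith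
  have h := Pool.Agent.Helper66.RMT.zeta_app (s := 1 + 2 * (t : ℂ) * Complex.I) (by simp) (s_ne ht0.ne') hM
  have hM0 : (0 : ℝ) < M := by exact_mod_cast hM
  have h2 : ‖(M : ℂ) ^ (1 - (1 + 2 * (t : ℂ) * Complex.I)) / ((1 + 2 * (t : ℂ) * Complex.I) - 1)‖ = 1 / (2 * t) := by
    rw [s_sub, norm_div, Complex.norm_natCast_cpow_of_pos (by omega)]
    have : (1 - (1 + 2 * (t : ℂ) * Complex.I)).re = 0 := by simp
    rw [this, Real.rpow_zero, norm_mul, norm_mul, Complex.norm_I, Complex.norm_real, Real.norm_of_nonneg ht0.le]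
    norm_num
  have h3 : zl t - ∑ m ∈ Icc 1 M, tw t m = (riemannZeta (1 + 2 * (t : ℂ) * Complex.I) -
      ∑ m ∈ Icc 1 M, (m : ℂ) ^ (-(1 + 2 * (t : ℂ) * Complex.I)) -
      (M : ℂ) ^ (1 - (1 + 2 * (t : ℂ) * Complex.I)) / ((1 + 2 * (t : ℂ) * Complex.I) - 1)) +
      (M : ℂ) ^ (1 - (1 + 2 * (t : ℂ) * Complex.I)) / ((1 + 2 * (t : ℂ) * Complex.I) - 1) := by
    unfold zl tw
    ring
  rw [h3]
  refine (norm_add_le _ _).trans ?_
  rw [h2, add_comm]
  refine add_le_add le_rfl (h.trans ?_)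
  exact div_le_div_of_nonneg_right (norm_s_le ht) hM0.le

lemma zl_le {t : ℝ} (ht : 1 ≤ t) : ‖zl t‖ ≤ 8 * Real.sqrt t := by
  have ht0 : 0 < t := by linarith
  obtain ⟨M, hMdef⟩ : ∃ M, M = ⌈t⌉₊ := ⟨_, rfl⟩
  have hM1 : t ≤ M := by rw [hMdef]; exact Nat.le_ceil t
  have hM2 : (M : ℝ) < t + 1 := by rw [hMdef]; exact Nat.ceil_lt_add_one ht0.le
  have hMr : (1 : ℝ) ≤ M := by linarith
  have hM : 1 ≤ M := by exact_mod_cast hMr
  have h1 := zl_app ht hM
  have h2 : ‖∑ m ∈ Icc 1 M, tw t m‖ ≤ 1 + Real.log M := by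
    refine (norm_sum_le _ _).trans ?_
    simp only [tw_norm]
    exact harm_le M
  have h3 : Real.log M ≤ 2 * Real.sqrt t := by
    have h4 : Real.log M ≤ Real.log (t + 1) := Real.log_le_log (by linarith) hM2.le
    have h5 : Real.log (t + 1) = 2 * Real.log (Real.sqrt (t + 1)) := by
      rw [Real.log_sqrt (by linarith)]
      ring
    have h6 := Real.log_le_sub_one_of_pos (Real.sqrt_pos.2 (by linarith : 0 < t + 1))
    have h7 : Real.sqrt (t + 1) ≤ Real.sqrt t + 1 := by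
      rw [Real.sqrt_le_left (by positivity)]
      nlinarith [Real.sq_sqrt ht0.le, Real.sqrt_nonneg t]
    linarith
  have h4 : 1 / (2 * t) ≤ 1 / 2 := by
    apply div_le_div_of_nonneg_left (by norm_num) (by norm_num)
    linarith
  have h5 : 3 * t / M ≤ 3 := by
    rw [div_le_iff₀ (by linarith)]
    linarith
  have h6 : 1 ≤ Real.sqrt t := Real.one_le_sqrt.2 ht
  have h7 : ‖zl t‖ ≤ ‖zl t - ∑ m ∈ Icc 1 M, tw t m‖ + ‖∑ m ∈ Icc 1 M, tw t m‖ := by
    have := norm_add_le (zl t - ∑ m ∈ Icc 1 M, tw t m) (∑ m ∈ Icc 1 M, tw t m)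
    rwa [sub_add_cancel] at this
  linarith

/-- tails of the smooth part -/
lemma Py_tail (y : ℕ) {ε : ℝ} (hε : 0 < ε) : ∃ F : Finset ℕ, Ico 1 y ⊆ F ∧ (∀ n ∈ F, 1 ≤ n) ∧
    ∀ t, ‖Py y t - ∑ n ∈ F, tw t n‖ ≤ ε := by
  classical
  have hsum := summable_Py_norm y
  obtain ⟨F0, hF0⟩ := (Metric.tendsto_atTop.1 (tendsto_tsum_compl_atTop_zero (fun m : y.smoothNumbers => (1 : ℝ) / (m : ℕ)))) ε hε
  -- add the small numbers
  have hmem : ∀ n ∈ Ico 1 y, n ∈ y.smoothNumbers := fun n hn => by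
    rw [Finset.mem_Ico] at hn
    exact Nat.mem_smoothNumbers_of_lt hn.1 hn.2
  let F1 : Finset y.smoothNumbers := F0 ∪ (Ico 1 y).attach.image (fun n => ⟨n.1, hmem n.1 n.2⟩)
  have hF1 := hF0 F1 Finset.subset_union_left
  refine ⟨F1.image Subtype.val, ?_, ?_, ?_⟩
  · intro n hn
    rw [Finset.mem_image]
    refine ⟨⟨n, hmem n hn⟩, ?_, rfl⟩
    rw [Finset.mem_union]
    right
    rw [Finset.mem_image]
    exact ⟨⟨n, hn⟩, Finset.mem_attach _ _, rfl⟩
  · intro n hn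
    rw [Finset.mem_image] at hn
    obtain ⟨m, _, rfl⟩ := hn
    exact Nat.pos_of_ne_zero m.2.1
  · intro t
    have hs : Summable fun m : y.smoothNumbers => tw t m := by
      refine Summable.of_norm ?_
      simp only [tw_norm]
      exact hsum
    rw [Finset.sum_image (fun a _ b _ h => Subtype.ext h)]
    have h1 := hs.sum_add_tsum_subtype_compl F1
    have h2 : Py y t - ∑ m ∈ F1, tw t (m : ℕ) = ∑' x : {x // x ∉ F1}, tw t ((x : y.smoothNumbers) : ℕ) := by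
      unfold Py
      rw [← h1]
      ring
    rw [h2]
    have h3 : Summable fun x : {x // x ∉ F1} => ‖tw t ((x : y.smoothNumbers) : ℕ)‖ := by
      simp only [tw_norm]
      exact hsum.subtype _
    refine (norm_tsum_le_tsum_norm h3).trans ?_
    simp only [tw_norm]
    rw [Real.dist_eq, sub_zero] at hF1
    exact (le_abs_self _).trans hF1.le

lemma Py_continuous (y : ℕ) : Continuous (Py y) := by
  have h : Py y = fun t => ∏ p ∈ y.primesBelow, (1 - tw t p)⁻¹ := funext fun t => Py_prod y t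
  rw [h]
  refine continuous_finsetProd _ fun p hp => ?_
  have hpp := Nat.prime_of_mem_primesBelow hp
  have hc : Continuous fun t : ℝ => tw t p := by
    unfold tw
    have hp0 : (p : ℂ) ≠ 0 := by exact_mod_cast hpp.ne_zero
    exact Continuous.const_cpow (by fun_prop) (Or.inl hp0)
  refine (continuous_const.sub hc).inv₀ fun t h0 => ?_
  have h1 := tw_norm_lt (t := t) hpp
  have h2 : tw t p = 1 := (sub_eq_zero.1 h0).symm
  rw [h2, norm_one] at h1
  exact lt_irrefl _ h1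

lemma tw_continuous {n : ℕ} (hn : 1 ≤ n) : Continuous fun t : ℝ => tw t n := by
  unfold tw
  have hp0 : (n : ℂ) ≠ 0 := by exact_mod_cast (by omega : n ≠ 0)
  exact Continuous.const_cpow (by fun_prop) (Or.inl hp0)

lemma tail2 {y N : ℕ} (hy : 1 ≤ y) {F : Finset ℕ} (hF : Ico 1 y ⊆ F) :
    ∑ n ∈ Icc 1 N \ F, (1 : ℝ) / n ^ 2 ≤ 2 / y := by
  have h := sum_Ioo_inv_sq_le (α := ℝ) (y - 1) (N + 1)
  have e : ((y - 1 : ℕ) : ℝ) + 1 = y := by rw [Nat.cast_sub hy]; push_cast; ring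
  rw [e] at h
  refine le_trans ?_ h
  simp only [one_div]
  apply Finset.sum_le_sum_of_subset_of_nonneg
  · intro n hn
    rw [Finset.mem_sdiff, Finset.mem_Icc] at hn
    rw [Finset.mem_Ioo]
    have : ¬ n < y := fun h => hn.2 (hF (Finset.mem_Ico.2 ⟨hn.1.1, h⟩))
    omega
  · intros; positivity

lemma log_small {e : ℝ} (he : 0 < e) : ∀ᶠ T : ℝ in atTop,
    Real.log T / 2 + 3 + (1 + 3 * Real.log T) ^ 2 / e ≤ 2 * e * T := by
  have hc : 0 < 2 * e / (4 + 16 / e) := by positivity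
  have h := (Real.isLittleO_pow_log_id_atTop (n := 2)).def hc
  filter_upwards [h, eventually_ge_atTop (Real.exp 1)] with T hT hT2
  have hT0 : 0 < T := lt_of_lt_of_le (Real.exp_pos 1) hT2
  have hl : 1 ≤ Real.log T := by
    rw [Real.le_log_iff_exp_le hT0]; exact hT2
  rw [Real.norm_of_nonneg (by positivity), id, Real.norm_of_nonneg hT0.le, div_mul_eq_mul_div, le_div_iff₀ (by positivity)] at hT
  have h1 : (1 + 3 * Real.log T) ^ 2 ≤ 16 * Real.log T ^ 2 := by nlinarith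
  have h2 : (1 + 3 * Real.log T) ^ 2 / e ≤ 16 / e * Real.log T ^ 2 := by
    rw [div_mul_eq_mul_div]
    exact div_le_div_of_nonneg_right h1 he.le
  nlinarith

lemma main_approx {ε : ℝ} (hε : 0 < ε) : ∃ y0 : ℕ, ∀ y : ℕ, y0 ≤ y → ∀ᶠ T : ℝ in atTop,
    (∫ t in (1 : ℝ)..T, ‖zl t - Py y t‖) / T ≤ ε := by
  obtain ⟨e, he⟩ : ∃ e : ℝ, e = ε / 4 := ⟨_, rfl⟩
  have he0 : 0 < e := by rw [he]; positivity
  refine ⟨⌈2 / e ^ 2⌉₊ + 1, fun y hy => ?_⟩
  have hy1 : 1 ≤ y := by omega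
  have hy0 : (0 : ℝ) < y := by exact_mod_cast hy1
  have hye : 2 / (y : ℝ) ≤ e ^ 2 := by
    have h1 : 2 / e ^ 2 ≤ (y : ℝ) := (Nat.le_ceil _).trans (by exact_mod_cast (by omega : ⌈2 / e ^ 2⌉₊ ≤ y))
    rw [div_le_iff₀ (by positivity)] at h1
    rw [div_le_iff₀ hy0]
    linarith
  obtain ⟨F, hF1, hF2, hF3⟩ := Py_tail y he0
  filter_upwards [log_small he0, eventually_ge_atTop (3 : ℝ), eventually_ge_atTop ((F.sup id : ℕ) : ℝ)] with T hT1 hT2 hT3
  have hT0 : 0 < T := by linarith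
  have hTone : 1 ≤ T := by linarith
  obtain ⟨N, hN⟩ : ∃ N, N = ⌈T ^ 2⌉₊ + F.sup id := ⟨_, rfl⟩
  have hN1 : T ^ 2 ≤ N := by
    rw [hN]
    push_cast
    have := Nat.le_ceil (T ^ 2)
    have h2 : (0 : ℝ) ≤ ((F.sup id : ℕ) : ℝ) := Nat.cast_nonneg _
    linarith
  have hNr : (1 : ℝ) ≤ N := by nlinarith
  have hN0 : 1 ≤ N := by exact_mod_cast hNr
  have hN2 : (N : ℝ) ≤ T ^ 3 := by
    rw [hN]
    push_cast
    have := Nat.ceil_lt_add_one (by positivity : (0 : ℝ) ≤ T ^ 2)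
    have h3 : T ^ 3 = T ^ 2 * T := by ring
    nlinarith
  have hlogN : Real.log N ≤ 3 * Real.log T := by
    have h1 := Real.log_le_log (by linarith) hN2
    rwa [Real.log_pow, Nat.cast_ofNat] at h1
  have hFN : F ⊆ Icc 1 N := by
    intro n hn
    rw [Finset.mem_Icc]
    have := Finset.le_sup (f := id) hn
    simp only [id] at this
    exact ⟨hF2 n hn, by omega⟩
  -- pointwise
  have hpt : ∀ t ∈ Set.Icc 1 T, ‖zl t - Py y t‖ ≤
      1 / 2 * t⁻¹ + (3 / T + 3 * e / 2) + 1 / (2 * e) * ‖∑ n ∈ Icc 1 N \ F, tw t n‖ ^ 2 := by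
    intro t ht
    have ht0 : 0 < t := by linarith [ht.1]
    have h1 := zl_app ht.1 hN0
    have h2 := hF3 t
    have h3 : ∑ n ∈ Icc 1 N, tw t n = ∑ n ∈ Icc 1 N \ F, tw t n + ∑ n ∈ F, tw t n := (Finset.sum_sdiff hFN).symm
    have h4 : zl t - Py y t = (zl t - ∑ n ∈ Icc 1 N, tw t n) + ∑ n ∈ Icc 1 N \ F, tw t n -
        (Py y t - ∑ n ∈ F, tw t n) := by
      rw [h3]; ring
    have h5 : 3 * t / N ≤ 3 / T := by
      rw [div_le_div_iff₀ (by linarith) hT0]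
      nlinarith [ht.2]
    have h6 : ‖∑ n ∈ Icc 1 N \ F, tw t n‖ ≤ e / 2 + 1 / (2 * e) * ‖∑ n ∈ Icc 1 N \ F, tw t n‖ ^ 2 := by
      have h7 : 0 ≤ (‖∑ n ∈ Icc 1 N \ F, tw t n‖ - e) ^ 2 / (2 * e) := by positivity
      have h8 : (‖∑ n ∈ Icc 1 N \ F, tw t n‖ - e) ^ 2 / (2 * e) =
          1 / (2 * e) * ‖∑ n ∈ Icc 1 N \ F, tw t n‖ ^ 2 - ‖∑ n ∈ Icc 1 N \ F, tw t n‖ + e / 2 := by
        field_simp
        ring
      linarith
    rw [h4]
    have h9 : 1 / (2 * t) = 1 / 2 * t⁻¹ := by rw [one_div, mul_inv, one_div]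
    calc ‖(zl t - ∑ n ∈ Icc 1 N, tw t n) + ∑ n ∈ Icc 1 N \ F, tw t n - (Py y t - ∑ n ∈ F, tw t n)‖
        ≤ ‖(zl t - ∑ n ∈ Icc 1 N, tw t n) + ∑ n ∈ Icc 1 N \ F, tw t n‖ + ‖Py y t - ∑ n ∈ F, tw t n‖ := norm_sub_le _ _
      _ ≤ (‖zl t - ∑ n ∈ Icc 1 N, tw t n‖ + ‖∑ n ∈ Icc 1 N \ F, tw t n‖) + ‖Py y t - ∑ n ∈ F, tw t n‖ := by
          gcongr
          exact norm_add_le _ _
      _ ≤ _ := by linarith
  -- integrability
  have hzc : ContinuousOn (fun t => ‖zl t - Py y t‖) (Set.uIcc 1 T) := by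
    rw [Set.uIcc_of_le hTone]
    refine ContinuousOn.norm (ContinuousOn.sub (zl_continuousOn.mono fun t ht => ?_) (Py_continuous y).continuousOn)
    exact lt_of_lt_of_le one_pos ht.1
  have hDc : Continuous fun t => ‖∑ n ∈ Icc 1 N \ F, tw t n‖ ^ 2 := by
    refine (continuous_finsetSum _ fun n hn => tw_continuous ?_).norm.pow 2
    exact (Finset.mem_Icc.1 (Finset.mem_sdiff.1 hn).1).1
  have hinvc : ContinuousOn (fun t : ℝ => 1 / 2 * t⁻¹) (Set.uIcc 1 T) := by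
    rw [Set.uIcc_of_le hTone]
    refine continuousOn_const.mul (ContinuousOn.inv₀ continuousOn_id fun t ht => ?_)
    exact (lt_of_lt_of_le one_pos ht.1).ne'
  have hI1 : IntervalIntegrable (fun t : ℝ => 1 / 2 * t⁻¹) volume 1 T := hinvc.intervalIntegrable
  have hI2 : IntervalIntegrable (fun _ : ℝ => 3 / T + 3 * e / 2) volume 1 T := intervalIntegrable_const
  have hI3 : IntervalIntegrable (fun t => 1 / (2 * e) * ‖∑ n ∈ Icc 1 N \ F, tw t n‖ ^ 2) volume 1 T :=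
    (continuous_const.mul hDc).intervalIntegrable _ _
  have hle := intervalIntegral.integral_mono_on hTone hzc.intervalIntegrable ((hI1.add hI2).add hI3) hpt
  rw [intervalIntegral.integral_add (hI1.add hI2) hI3, intervalIntegral.integral_add hI1 hI2,
    intervalIntegral.integral_const_mul, intervalIntegral.integral_const_mul, integral_inv_of_pos one_pos hT0,
    intervalIntegral.integral_const, div_one] at hle
  have hms := ms_fin (Icc 1 N \ F) N Finset.sdiff_subset hTone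
  have ht2 := tail2 (N := N) hy1 hF1
  rw [div_le_iff₀ hT0]
  refine hle.trans ?_
  have hA : 1 / (2 * e) * ∫ t in (1 : ℝ)..T, ‖∑ n ∈ Icc 1 N \ F, tw t n‖ ^ 2 ≤
      e / 2 * T + (1 + 3 * Real.log T) ^ 2 / e := by
    have h1 : ∫ t in (1 : ℝ)..T, ‖∑ n ∈ Icc 1 N \ F, tw t n‖ ^ 2 ≤ T * e ^ 2 + 2 * (1 + 3 * Real.log T) ^ 2 := by
      refine hms.trans (add_le_add (mul_le_mul_of_nonneg_left (ht2.trans hye) hT0.le) ?_)
      have h2 : 0 ≤ 1 + Real.log N := add_nonneg zero_le_one (Real.log_natCast_nonneg N)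
      have h3 : (1 + Real.log N) ^ 2 ≤ (1 + 3 * Real.log T) ^ 2 := pow_le_pow_left₀ h2 (by linarith) 2
      linarith
    have h2 := mul_le_mul_of_nonneg_left h1 (by positivity : 0 ≤ 1 / (2 * e))
    refine h2.trans (le_of_eq ?_)
    field_simp
  have hB : (T - 1) • (3 / T + 3 * e / 2) ≤ 3 + 3 * e / 2 * T := by
    rw [smul_eq_mul]
    have h1 : (T - 1) * (3 / T + 3 * e / 2) ≤ T * (3 / T + 3 * e / 2) :=
      mul_le_mul_of_nonneg_right (by linarith) (by positivity)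
    have h2 : T * (3 / T + 3 * e / 2) = 3 + 3 * e / 2 * T := by field_simp
    linarith
  have hC : e = ε / 4 := he
  nlinarith

theorem mean_zl : Tendsto (fun T : ℝ => (∫ t in (1 : ℝ)..T, ‖zl t‖) / T) atTop (𝓝 mz) := by
  rw [Metric.tendsto_atTop']
  intro ε hε
  obtain ⟨y0, hy0⟩ := main_approx (ε := ε / 4) (by positivity)
  obtain ⟨y1, hy1⟩ := Metric.tendsto_atTop.1 my_tendsto (ε / 4) (by positivity)
  obtain ⟨y, hy⟩ : ∃ y, y = max y0 y1 := ⟨_, rfl⟩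
  have h1 := hy0 y (by rw [hy]; exact le_max_left _ _)
  have h2 := hy1 y (by rw [hy]; exact le_max_right _ _)
  have h3 := (Metric.tendsto_nhds.1 (mean_Py y)) (ε / 4) (by positivity)
  obtain ⟨T0, hT0⟩ := eventually_atTop.1 (h1.and (h3.and (eventually_ge_atTop (1 : ℝ))))
  refine ⟨T0, fun T hT => ?_⟩
  obtain ⟨ha, hb, hT1⟩ := hT0 T hT.le
  have hTpos : 0 < T := by linarith
  have hzc : ContinuousOn (fun t => ‖zl t‖) (Set.uIcc 1 T) := by
    rw [Set.uIcc_of_le hT1]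
    exact ContinuousOn.norm (zl_continuousOn.mono fun t ht => lt_of_lt_of_le one_pos ht.1)
  have hzd : ContinuousOn (fun t => ‖zl t - Py y t‖) (Set.uIcc 1 T) := by
    rw [Set.uIcc_of_le hT1]
    refine ContinuousOn.norm (ContinuousOn.sub (zl_continuousOn.mono fun t ht => ?_) (Py_continuous y).continuousOn)
    exact lt_of_lt_of_le one_pos ht.1
  have hP : Continuous fun t => ‖Py y t‖ := (Py_continuous y).norm
  have h4 : |(∫ t in (1 : ℝ)..T, ‖zl t‖) - ∫ t in (1 : ℝ)..T, ‖Py y t‖| ≤ ∫ t in (1 : ℝ)..T, ‖zl t - Py y t‖ := by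
    rw [← intervalIntegral.integral_sub hzc.intervalIntegrable (hP.intervalIntegrable _ _)]
    refine (intervalIntegral.abs_integral_le_integral_abs hT1).trans ?_
    refine intervalIntegral.integral_mono_on hT1 ?_ hzd.intervalIntegrable fun t _ => abs_norm_sub_norm_le _ _
    exact (hzc.sub hP.continuousOn).abs.intervalIntegrable
  have h5 : |(∫ t in (1 : ℝ)..T, ‖zl t‖) / T - (∫ t in (1 : ℝ)..T, ‖Py y t‖) / T| ≤ ε / 4 := by
    rw [← sub_div, abs_div, abs_of_pos hTpos]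
    exact (div_le_div_of_nonneg_right h4 hTpos.le).trans ha
  rw [Real.dist_eq] at hb h2 ⊢
  have h6 := abs_add_le ((∫ t in (1 : ℝ)..T, ‖zl t‖) / T - (∫ t in (1 : ℝ)..T, ‖Py y t‖) / T)
    ((∫ t in (1 : ℝ)..T, ‖Py y t‖) / T - my y)
  have h7 := abs_add_le ((∫ t in (1 : ℝ)..T, ‖zl t‖) / T - (∫ t in (1 : ℝ)..T, ‖Py y t‖) / T +
    ((∫ t in (1 : ℝ)..T, ‖Py y t‖) / T - my y)) (my y - mz)
  have h8 : (∫ t in (1 : ℝ)..T, ‖zl t‖) / T - (∫ t in (1 : ℝ)..T, ‖Py y t‖) / T +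
    ((∫ t in (1 : ℝ)..T, ‖Py y t‖) / T - my y) + (my y - mz) = (∫ t in (1 : ℝ)..T, ‖zl t‖) / T - mz := by ring
  rw [h8] at h7
  linarith

/-- the weight of the Liouville function -/
noncomputable def bZ (t : ℝ) : ℂ := riemannZeta (1 + 2 * t * Complex.I) / (1 / 2 + t * Complex.I)

lemma half_norm {t : ℝ} (ht : 1 ≤ t) : t ≤ ‖(1 / 2 + (t : ℂ) * Complex.I)‖ ∧ ‖(1 / 2 + (t : ℂ) * Complex.I)‖ ≤ t + 1 / 2 := by
  constructor
  · have h := Complex.abs_im_le_norm (1 / 2 + (t : ℂ) * Complex.I)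
    have e : (1 / 2 + (t : ℂ) * Complex.I).im = t := by simp
    rw [e, abs_of_nonneg (by linarith)] at h
    exact h
  · refine (norm_add_le _ _).trans ?_
    rw [norm_mul, Complex.norm_I, Complex.norm_real, Real.norm_of_nonneg (by linarith)]
    norm_num
    linarith

lemma bZ_near {t : ℝ} (ht : 1 ≤ t) : |t * ‖bZ t‖ - ‖zl t‖| ≤ 4 * t ^ (-(1 / 2) : ℝ) := by
  have ht0 : 0 < t := by linarith
  obtain ⟨h1, h2⟩ := half_norm ht
  have h3 : 0 < ‖(1 / 2 + (t : ℂ) * Complex.I)‖ := by linarith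
  have h4 := zl_le ht
  have h5 : ‖bZ t‖ = ‖zl t‖ / ‖(1 / 2 + (t : ℂ) * Complex.I)‖ := by
    unfold bZ zl; rw [norm_div]
  have h6 : t * ‖bZ t‖ - ‖zl t‖ = -(‖zl t‖ * ((‖(1 / 2 + (t : ℂ) * Complex.I)‖ - t) / ‖(1 / 2 + (t : ℂ) * Complex.I)‖)) := by
    rw [h5]
    have h7 : ‖(1 / 2 + (t : ℂ) * Complex.I)‖ ≠ 0 := h3.ne'
    generalize ‖(1 / 2 + (t : ℂ) * Complex.I)‖ = A at h7
    field_simp
    ring
  have h7 : (‖(1 / 2 + (t : ℂ) * Complex.I)‖ - t) / ‖(1 / 2 + (t : ℂ) * Complex.I)‖ ≤ 1 / 2 / t := by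
    rw [div_le_div_iff₀ h3 ht0]
    nlinarith
  have h8 : 0 ≤ (‖(1 / 2 + (t : ℂ) * Complex.I)‖ - t) / ‖(1 / 2 + (t : ℂ) * Complex.I)‖ :=
    div_nonneg (by linarith) h3.le
  rw [h6, abs_neg, abs_of_nonneg (mul_nonneg (norm_nonneg _) h8)]
  have h9 : t ^ (-(1 / 2) : ℝ) = Real.sqrt t / t := by
    rw [Real.sqrt_eq_rpow, Real.rpow_neg ht0.le, ← Real.rpow_sub_one ht0.ne', ← Real.rpow_neg ht0.le]
    norm_num
  rw [h9]
  calc ‖zl t‖ * ((‖(1 / 2 + (t : ℂ) * Complex.I)‖ - t) / ‖(1 / 2 + (t : ℂ) * Complex.I)‖)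
      ≤ (8 * Real.sqrt t) * (1 / 2 / t) := mul_le_mul h4 h7 h8 (by positivity)
    _ = 4 * (Real.sqrt t / t) := by ring

theorem mean_bZ : Tendsto (fun T : ℝ => (∫ t in (1 : ℝ)..T, t * ‖bZ t‖) / T) atTop (𝓝 mz) := by
  have hzero : Tendsto (fun T : ℝ => (∫ t in (1 : ℝ)..T, (t * ‖bZ t‖ - ‖zl t‖)) / T) atTop (𝓝 0) := by
    have hb : ∀ᶠ T : ℝ in atTop, ‖(∫ t in (1 : ℝ)..T, (t * ‖bZ t‖ - ‖zl t‖)) / T‖ ≤ 8 * T ^ (-(1 / 2) : ℝ) := by
      filter_upwards [eventually_ge_atTop (1 : ℝ)] with T hT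
      have hT0 : 0 < T := by linarith
      have h1 : ‖∫ t in (1 : ℝ)..T, (t * ‖bZ t‖ - ‖zl t‖)‖ ≤ ∫ t in (1 : ℝ)..T, 4 * t ^ (-(1 / 2) : ℝ) := by
        refine intervalIntegral.norm_integral_le_of_norm_le hT (Filter.Eventually.of_forall fun t ht => ?_) ?_
        · rw [Real.norm_eq_abs]
          exact bZ_near ht.1.le
        · exact (intervalIntegral.intervalIntegrable_rpow' (by norm_num)).const_mul 4
      rw [intervalIntegral.integral_const_mul, integral_rpow (Or.inl (by norm_num))] at h1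
      have h2 : (-(1 / 2) : ℝ) + 1 = 1 / 2 := by norm_num
      rw [h2, Real.one_rpow] at h1
      rw [norm_div, Real.norm_of_nonneg hT0.le, div_le_iff₀ hT0]
      have h3 : T ^ (-(1 / 2) : ℝ) * T = T ^ (1 / 2 : ℝ) := by
        rw [← Real.rpow_add_one hT0.ne']; norm_num
      rw [mul_assoc, h3]
      refine h1.trans ?_
      have h4 : 0 ≤ T ^ (1 / 2 : ℝ) := by positivity
      have h5 : 4 * ((T ^ (1 / 2 : ℝ) - 1) / (1 / 2)) = 8 * T ^ (1 / 2 : ℝ) - 8 := by ring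
      linarith
    refine squeeze_zero_norm' hb ?_
    have := (tendsto_rpow_neg_atTop (by norm_num : (0 : ℝ) < 1 / 2)).const_mul 8
    rw [mul_zero] at this
    exact this
  have hsum := mean_zl.add hzero
  rw [add_zero] at hsum
  refine hsum.congr' ?_
  filter_upwards [eventually_ge_atTop (1 : ℝ)] with T hT
  have hpos : ∀ t ∈ Set.uIcc 1 T, 0 < t := by
    intro t ht
    rw [Set.uIcc_of_le hT] at ht
    exact lt_of_lt_of_le one_pos ht.1
  have hzc : ContinuousOn (fun t => ‖zl t‖) (Set.uIcc 1 T) :=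
    ContinuousOn.norm (zl_continuousOn.mono fun t ht => hpos t ht)
  have hbc : ContinuousOn (fun t => t * ‖bZ t‖) (Set.uIcc 1 T) := by
    refine continuousOn_id.mul (ContinuousOn.norm ?_)
    refine ContinuousOn.div (zl_continuousOn.mono fun t ht => hpos t ht) (by fun_prop) fun t ht h0 => ?_
    have := congrArg Complex.re h0
    simp at this
  rw [← add_div, intervalIntegral.integral_sub hbc.intervalIntegrable hzc.intervalIntegrable]
  congr 1
  ring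

end Pool.Agent.Helper11.RMT
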