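import Pool.Agent.Helper11.RMT.Smooth

/-! RMT step 2, block MEAN, part 4: the mean square of a finite sum of `n^(-1-2it)`. -/

set_option autoImplicit false

namespace Pool.Agent.Helper11.RMT

open Finset Filter Topology MeasureTheory

lemma harm_le (N : ℕ) : ∑ h ∈ Icc 1 N, (1 : ℝ) / h ≤ 1 + Real.log N := by
  have h := harmonic_le_one_add_log N
  rw [harmonic_eq_sum_Icc] at h
  push_cast at h
  simpa only [one_div] using h

/-- bound for one integral -/
lemma int_exp_le {c : ℝ} (hc : c ≠ 0) (T : ℝ) :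
    ‖∫ t in (1 : ℝ)..T, Complex.exp ((c * t : ℝ) * Complex.I)‖ ≤ 2 / |c| := by
  have hcI : ((c : ℂ) * Complex.I) ≠ 0 := mul_ne_zero (by exact_mod_cast hc) Complex.I_ne_zero
  have h2 : ∀ t : ℝ, Complex.exp ((c * t : ℝ) * Complex.I) = Complex.exp ((c * Complex.I) * t) := by
    intro t; congr 1; push_cast; ring
  simp only [h2]
  rw [integral_exp_mul_complex hcI, norm_div]
  have h3 : ‖Complex.exp ((c * Complex.I) * T) - Complex.exp ((c * Complex.I) * (1 : ℝ))‖ ≤ 2 := by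
    refine (norm_sub_le _ _).trans ?_
    rw [← h2, ← h2, Complex.norm_exp_ofReal_mul_I, Complex.norm_exp_ofReal_mul_I]
    norm_num
  have h4 : ‖(c : ℂ) * Complex.I‖ = |c| := by
    rw [norm_mul, Complex.norm_I, mul_one, Complex.norm_real, Real.norm_eq_abs]
  rw [h4]
  exact div_le_div_of_nonneg_right h3 (abs_nonneg c)

lemma tw_eq {n : ℕ} (hn : 1 ≤ n) (t : ℝ) :
    tw t n = ((1 / n : ℝ) : ℂ) * Complex.exp ((-(2 * Real.log n) * t : ℝ) * Complex.I) := by
  have hm0 : (n : ℂ) ≠ 0 := by exact_mod_cast (by omega : n ≠ 0)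
  unfold tw
  rw [show -(1 + 2 * (t : ℂ) * Complex.I) = -1 + -(2 * (t : ℂ) * Complex.I) by ring, Complex.cpow_add _ _ hm0,
    Complex.cpow_neg_one, Complex.cpow_def_of_ne_zero hm0, ← Complex.natCast_log]
  push_cast
  rw [one_div]
  congr 2
  ring

lemma log_sub_ge {m n : ℕ} (hm : 1 ≤ m) (h : m < n) : ((n : ℝ) - m) / n ≤ Real.log n - Real.log m := by
  have hm0 : (0 : ℝ) < m := by exact_mod_cast hm
  have hn0 : (0 : ℝ) < n := by exact_mod_cast (by omega : 0 < n)
  have h1 := Real.log_le_sub_one_of_pos (div_pos hm0 hn0)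
  rw [Real.log_div hm0.ne' hn0.ne'] at h1
  have h2 : ((n : ℝ) - m) / n = 1 - m / n := by field_simp
  linarith

/-- the off diagonal term -/
lemma off_le {m n : ℕ} (hm : 1 ≤ m) (h : m < n) :
    (1 / (m : ℝ)) * (1 / n) * (2 / |2 * (Real.log n - Real.log m)|) ≤ (1 / m) * (1 / ((n - m : ℕ) : ℝ)) := by
  have hm0 : (0 : ℝ) < m := by exact_mod_cast hm
  have hn0 : (0 : ℝ) < n := by exact_mod_cast (by omega : 0 < n)
  have hd : ((n - m : ℕ) : ℝ) = (n : ℝ) - m := by rw [Nat.cast_sub h.le]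
  have hd0 : (0 : ℝ) < (n : ℝ) - m := by
    have : (m : ℝ) < n := by exact_mod_cast h
    linarith
  have h1 := log_sub_ge hm h
  have h2 : 0 < Real.log n - Real.log m := lt_of_lt_of_le (div_pos hd0 hn0) h1
  rw [abs_of_pos (by linarith), hd, mul_assoc]
  apply mul_le_mul_of_nonneg_left _ (by positivity)
  have h3 : 2 / (2 * (Real.log n - Real.log m)) ≤ n / ((n : ℝ) - m) := by
    rw [div_le_div_iff₀ (by linarith) hd0]
    rw [div_le_iff₀ hn0] at h1
    linarith
  calc 1 / (n : ℝ) * (2 / (2 * (Real.log n - Real.log m))) ≤ 1 / (n : ℝ) * (n / ((n : ℝ) - m)) :=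
        mul_le_mul_of_nonneg_left h3 (by positivity)
    _ = 1 / ((n : ℝ) - m) := by field_simp

lemma inner_le (N m : ℕ) (hm : 1 ≤ m) :
    ∑ n ∈ (Icc 1 N).filter (fun n => m < n), (1 / (m : ℝ)) * (1 / ((n - m : ℕ) : ℝ)) ≤ (1 / m) * (1 + Real.log N) := by
  rw [← Finset.mul_sum]
  apply mul_le_mul_of_nonneg_left _ (by positivity)
  refine le_trans ?_ (harm_le N)
  have hinj : Set.InjOn (fun n : ℕ => n - m) ((Icc 1 N).filter (fun n => m < n) : Finset ℕ) := by
    intro a ha b hb hab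
    have h1 := (Finset.mem_filter.1 (Finset.mem_coe.1 ha)).2
    have h2 := (Finset.mem_filter.1 (Finset.mem_coe.1 hb)).2
    simp only at hab
    omega
  rw [← Finset.sum_image (f := fun h : ℕ => (1 : ℝ) / h) hinj]
  apply Finset.sum_le_sum_of_subset_of_nonneg
  · intro h hh
    rw [Finset.mem_image] at hh
    obtain ⟨n, hn, rfl⟩ := hh
    rw [Finset.mem_filter, Finset.mem_Icc] at hn
    rw [Finset.mem_Icc]
    omega
  · intros; positivity

lemma ms_fin (S : Finset ℕ) (N : ℕ) (hS : S ⊆ Icc 1 N) {T : ℝ} (hT : 1 ≤ T) :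
    ∫ t in (1 : ℝ)..T, ‖∑ n ∈ S, tw t n‖ ^ 2 ≤ T * ∑ n ∈ S, (1 : ℝ) / n ^ 2 + 2 * (1 + Real.log N) ^ 2 := by
  classical
  have hS1 : ∀ n ∈ S, 1 ≤ n := fun n hn => (Finset.mem_Icc.1 (hS hn)).1
  -- expand
  have hsq : ∀ t : ℝ, ((‖∑ n ∈ S, tw t n‖ ^ 2 : ℝ) : ℂ) = ∑ m ∈ S, ∑ n ∈ S, ((1 / m * (1 / n) : ℝ) : ℂ) *
      Complex.exp (((2 * (Real.log n - Real.log m)) * t : ℝ) * Complex.I) := by
    intro t
    have h1 : ∀ z : ℂ, ((‖z‖ ^ 2 : ℝ) : ℂ) = z * (starRingEnd ℂ) z := by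
      intro z
      rw [Complex.mul_conj, Complex.normSq_eq_norm_sq]
    rw [h1, map_sum, Finset.sum_mul_sum]
    refine Finset.sum_congr rfl fun m hm => Finset.sum_congr rfl fun n hn => ?_
    rw [tw_eq (hS1 m hm), tw_eq (hS1 n hn), map_mul, Complex.conj_ofReal, ← Complex.exp_conj, map_mul,
      Complex.conj_ofReal, Complex.conj_I]
    have h2 : Complex.exp ((((2 * (Real.log n - Real.log m)) * t : ℝ) : ℂ) * Complex.I) =
        Complex.exp (((-(2 * Real.log m) * t : ℝ) : ℂ) * Complex.I) *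
          Complex.exp (((-(2 * Real.log n) * t : ℝ) : ℂ) * -Complex.I) := by
      rw [← Complex.exp_add]
      congr 1
      push_cast
      ring
    rw [h2]
    push_cast
    ring
  have hint : (((∫ t in (1 : ℝ)..T, ‖∑ n ∈ S, tw t n‖ ^ 2) : ℝ) : ℂ) = ∑ m ∈ S, ∑ n ∈ S, ((1 / m * (1 / n) : ℝ) : ℂ) *
      ∫ t in (1 : ℝ)..T, Complex.exp (((2 * (Real.log n - Real.log m)) * t : ℝ) * Complex.I) := by
    rw [← intervalIntegral.integral_ofReal]
    rw [intervalIntegral.integral_congr (g := fun t => ∑ m ∈ S, ∑ n ∈ S, ((1 / m * (1 / n) : ℝ) : ℂ) *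
      Complex.exp (((2 * (Real.log n - Real.log m)) * t : ℝ) * Complex.I)) (fun t _ => hsq t)]
    rw [intervalIntegral.integral_finsetSum]
    · refine Finset.sum_congr rfl fun m _ => ?_
      rw [intervalIntegral.integral_finsetSum]
      · refine Finset.sum_congr rfl fun n _ => ?_
        rw [intervalIntegral.integral_const_mul]
      · intro n _
        exact Continuous.intervalIntegrable (by fun_prop) _ _
    · intro m _
      exact Continuous.intervalIntegrable (by fun_prop) _ _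
  have h0 : 0 ≤ ∫ t in (1 : ℝ)..T, ‖∑ n ∈ S, tw t n‖ ^ 2 :=
    intervalIntegral.integral_nonneg hT fun t _ => sq_nonneg _
  have hnorm : ∫ t in (1 : ℝ)..T, ‖∑ n ∈ S, tw t n‖ ^ 2 ≤ ∑ m ∈ S, ∑ n ∈ S, (1 / (m : ℝ)) * (1 / n) *
      ‖∫ t in (1 : ℝ)..T, Complex.exp (((2 * (Real.log n - Real.log m)) * t : ℝ) * Complex.I)‖ := by
    have h3 : ∫ t in (1 : ℝ)..T, ‖∑ n ∈ S, tw t n‖ ^ 2 = ‖(((∫ t in (1 : ℝ)..T, ‖∑ n ∈ S, tw t n‖ ^ 2) : ℝ) : ℂ)‖ := by
      rw [Complex.norm_real, Real.norm_of_nonneg h0]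
    rw [h3, hint]
    refine (norm_sum_le _ _).trans (Finset.sum_le_sum fun m _ => (norm_sum_le _ _).trans (Finset.sum_le_sum fun n _ => ?_))
    rw [norm_mul, Complex.norm_real, Real.norm_of_nonneg (by positivity)]
  refine hnorm.trans ?_
  -- the three parts
  have hsplit : ∀ m ∈ S, ∀ n ∈ S, (1 / (m : ℝ)) * (1 / n) *
      ‖∫ t in (1 : ℝ)..T, Complex.exp (((2 * (Real.log n - Real.log m)) * t : ℝ) * Complex.I)‖ ≤
      (if m = n then T * ((1 : ℝ) / n ^ 2) else 0) + (if m < n then (1 / (m : ℝ)) * (1 / ((n - m : ℕ) : ℝ)) else 0) +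
        (if n < m then (1 / (n : ℝ)) * (1 / ((m - n : ℕ) : ℝ)) else 0) := by
    intro m hm n hn
    have hm1 := hS1 m hm
    have hn1 := hS1 n hn
    have hm0 : (0 : ℝ) < m := by exact_mod_cast hm1
    have hn0 : (0 : ℝ) < n := by exact_mod_cast hn1
    rcases lt_trichotomy m n with h | h | h
    · rw [if_neg h.ne, if_pos h, if_neg h.le.not_gt, zero_add, add_zero]
      refine le_trans (mul_le_mul_of_nonneg_left (int_exp_le ?_ T) (by positivity)) (off_le hm1 h)
      have h1 := log_sub_ge hm1 h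
      have h2 : (0 : ℝ) < ((n : ℝ) - m) / n := div_pos (by
        have : (m : ℝ) < n := by exact_mod_cast h
        linarith) hn0
      have : 0 < 2 * (Real.log n - Real.log m) := by linarith
      exact this.ne'
    · subst h
      rw [if_pos rfl, if_neg (lt_irrefl _), add_zero, add_zero]
      have h1 : ‖∫ t in (1 : ℝ)..T, Complex.exp (((2 * (Real.log m - Real.log m)) * t : ℝ) * Complex.I)‖ ≤ T := by
        refine (intervalIntegral.norm_integral_le_of_norm_le_const (C := 1) fun t _ => ?_).trans ?_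
        · rw [Complex.norm_exp_ofReal_mul_I]
        · rw [abs_of_nonneg (by linarith)]
          linarith
      calc (1 / (m : ℝ)) * (1 / m) * ‖∫ t in (1 : ℝ)..T, Complex.exp (((2 * (Real.log m - Real.log m)) * t : ℝ) * Complex.I)‖
          ≤ (1 / (m : ℝ)) * (1 / m) * T := mul_le_mul_of_nonneg_left h1 (by positivity)
        _ = _ := by field_simp
    · rw [if_neg h.ne', if_neg h.le.not_gt, if_pos h, add_zero, zero_add]
      have h1 := log_sub_ge hn1 h
      have h2 : (0 : ℝ) < ((m : ℝ) - n) / m := div_pos (by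
        have : (n : ℝ) < m := by exact_mod_cast h
        linarith) hm0
      have h3 : 2 * (Real.log n - Real.log m) ≠ 0 := by
        have : 2 * (Real.log n - Real.log m) < 0 := by linarith
        exact this.ne
      refine le_trans (mul_le_mul_of_nonneg_left (int_exp_le h3 T) (by positivity)) ?_
      have h4 := off_le hn1 h
      have h5 : |2 * (Real.log n - Real.log m)| = |2 * (Real.log m - Real.log n)| := by
        rw [← abs_neg]; congr 1; ring
      rw [h5, mul_comm (1 / (m : ℝ))]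
      exact h4
  refine (Finset.sum_le_sum fun m hm => Finset.sum_le_sum fun n hn => hsplit m hm n hn).trans ?_
  simp only [Finset.sum_add_distrib]
  have hA : ∑ m ∈ S, ∑ n ∈ S, (if m = n then T * ((1 : ℝ) / n ^ 2) else 0) = T * ∑ n ∈ S, (1 : ℝ) / n ^ 2 := by
    rw [Finset.mul_sum]
    refine Finset.sum_congr rfl fun m hm => ?_
    rw [Finset.sum_ite_eq]
    rw [if_pos hm]
  have hB : ∑ m ∈ S, ∑ n ∈ S, (if m < n then (1 / (m : ℝ)) * (1 / ((n - m : ℕ) : ℝ)) else 0) ≤ (1 + Real.log N) ^ 2 := by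
    have h1 : ∀ m ∈ S, ∑ n ∈ S, (if m < n then (1 / (m : ℝ)) * (1 / ((n - m : ℕ) : ℝ)) else 0) ≤ (1 / m) * (1 + Real.log N) := by
      intro m hm
      rw [← Finset.sum_filter]
      refine le_trans ?_ (inner_le N m (hS1 m hm))
      refine Finset.sum_le_sum_of_subset_of_nonneg (Finset.filter_subset_filter _ hS) fun _ _ _ => by positivity
    refine (Finset.sum_le_sum h1).trans ?_
    rw [← Finset.sum_mul, sq]
    have hlog : 0 ≤ 1 + Real.log N := add_nonneg zero_le_one (Real.log_natCast_nonneg N)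
    apply mul_le_mul_of_nonneg_right _ hlog
    exact (Finset.sum_le_sum_of_subset_of_nonneg hS fun _ _ _ => by positivity).trans (harm_le N)
  have hC : ∑ m ∈ S, ∑ n ∈ S, (if n < m then (1 / (n : ℝ)) * (1 / ((m - n : ℕ) : ℝ)) else 0) ≤ (1 + Real.log N) ^ 2 := by
    rw [Finset.sum_comm]
    exact hB
  linarith

end Pool.Agent.Helper11.RMT
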