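import Pool.Agent.Helper11.RMT.Cb
import Pool.Agent.Helper11.RMT.MeanSq

/-! RMT step 2, block MEAN, part 3: Euler products over the smooth numbers and the mean of their absolute value. -/

set_option autoImplicit false

namespace Pool.Agent.Helper11.RMT

open Finset Filter Topology MeasureTheory

/-- `∏_{p^k ‖ n} cb k` -/
noncomputable def cc (n : ℕ) : ℝ := n.factorization.prod fun _ k => cb k

lemma cc_one : cc 1 = 1 := by simp [cc]

lemma cc_mul {m n : ℕ} (h : m.Coprime n) : cc (m * n) = cc m * cc n := by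
  unfold cc
  rw [Nat.factorization_mul_of_coprime h, Finsupp.prod_add_index_of_disjoint]
  exact h.disjoint_primeFactors

lemma cc_pow {p : ℕ} (hp : p.Prime) (k : ℕ) : cc (p ^ k) = cb k := by
  unfold cc
  rw [hp.factorization_pow, Finsupp.prod_single_index cb_zero]

lemma cc_nonneg (n : ℕ) : 0 ≤ cc n := by
  unfold cc Finsupp.prod
  exact Finset.prod_nonneg fun _ _ => cb_nonneg _

lemma cc_le_one (n : ℕ) : cc n ≤ 1 := by
  unfold cc Finsupp.prod
  exact Finset.prod_le_one (fun _ _ => cb_nonneg _) fun _ _ => cb_le_one _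

/-- `n ^ (-1 - 2 i t)` -/
noncomputable def tw (t : ℝ) (n : ℕ) : ℂ := (n : ℂ) ^ (-(1 + 2 * t * Complex.I))

lemma tw_exp_ne (t : ℝ) : -(1 + 2 * (t : ℂ) * Complex.I) ≠ 0 := by
  intro h
  have := congrArg Complex.re h
  simp at this

lemma tw_zero (t : ℝ) : tw t 0 = 0 := by
  unfold tw
  rw [Nat.cast_zero, Complex.zero_cpow (tw_exp_ne t)]

lemma tw_one (t : ℝ) : tw t 1 = 1 := by simp [tw]

lemma tw_mul (t : ℝ) (m n : ℕ) : tw t (m * n) = tw t m * tw t n := by
  unfold tw
  rw [Nat.cast_mul, Complex.natCast_mul_natCast_cpow]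

lemma tw_pow (t : ℝ) (m k : ℕ) : tw t (m ^ k) = tw t m ^ k := by
  induction k with
  | zero => simp [tw_one]
  | succ k ih => rw [pow_succ, tw_mul, ih, pow_succ]

lemma tw_norm (t : ℝ) (n : ℕ) : ‖tw t n‖ = 1 / n := by
  rcases Nat.eq_zero_or_pos n with h | h
  · subst h; simp [tw_zero]
  · unfold tw
    rw [Complex.norm_natCast_cpow_of_pos h]
    have : (-(1 + 2 * (t : ℂ) * Complex.I)).re = -1 := by simp
    rw [this, Real.rpow_neg_one, one_div]

lemma tw_norm_lt {t : ℝ} {p : ℕ} (hp : p.Prime) : ‖tw t p‖ < 1 := by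
  rw [tw_norm, div_lt_one (by exact_mod_cast hp.pos)]
  exact_mod_cast hp.one_lt

/-- the smooth part of zeta -/
noncomputable def Py (y : ℕ) (t : ℝ) : ℂ := ∑' m : y.smoothNumbers, tw t m

/-- its square root -/
noncomputable def Qy (y : ℕ) (t : ℝ) : ℂ := ∑' m : y.smoothNumbers, (cc m : ℂ) * tw t m

lemma summable_Py_norm (y : ℕ) : Summable (fun m : y.smoothNumbers => (1 : ℝ) / (m : ℕ)) := by
  have h := (EulerProduct.summable_and_hasSum_smoothNumbers_prod_primesBelow_tsum (f := tw 0) (tw_one 0)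
    (fun {m n} _ => tw_mul 0 m n) (fun {p} hp => by
      simp only [tw_pow, norm_pow]
      exact summable_geometric_of_lt_one (norm_nonneg _) (tw_norm_lt hp)) y).1
  simpa only [tw_norm] using h

lemma Py_prod (y : ℕ) (t : ℝ) : Py y t = ∏ p ∈ y.primesBelow, (1 - tw t p)⁻¹ := by
  have h := (EulerProduct.summable_and_hasSum_smoothNumbers_prod_primesBelow_tsum (f := tw t) (tw_one t)
    (fun {m n} _ => tw_mul t m n) (fun {p} hp => by
      simp only [tw_pow, norm_pow]
      exact summable_geometric_of_lt_one (norm_nonneg _) (tw_norm_lt hp)) y).2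
  unfold Py
  rw [h.tsum_eq]
  refine Finset.prod_congr rfl fun p hp => ?_
  simp only [tw_pow]
  exact tsum_geometric_of_norm_lt_one (tw_norm_lt (Nat.prime_of_mem_primesBelow hp))

lemma Qy_prod (y : ℕ) (t : ℝ) : Qy y t = ∏ p ∈ y.primesBelow, qq (tw t p) := by
  have h := (EulerProduct.summable_and_hasSum_smoothNumbers_prod_primesBelow_tsum
    (f := fun n => (cc n : ℂ) * tw t n) (by simp [cc_one, tw_one])
    (fun {m n} h => by rw [cc_mul h, tw_mul]; push_cast; ring) (fun {p} hp => by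
      have := qq_summable (tw_norm_lt (t := t) hp)
      refine this.congr fun k => ?_
      rw [cc_pow hp, tw_pow]) y).2
  unfold Qy
  rw [h.tsum_eq]
  refine Finset.prod_congr rfl fun p hp => ?_
  unfold qq
  refine tsum_congr fun k => ?_
  rw [cc_pow (Nat.prime_of_mem_primesBelow hp), tw_pow]

lemma Qy_sq (y : ℕ) (t : ℝ) : ‖Qy y t‖ ^ 2 = ‖Py y t‖ := by
  rw [← norm_pow, Qy_prod, Py_prod, ← Finset.prod_pow]
  congr 1
  exact Finset.prod_congr rfl fun p hp => qq_sq (tw_norm_lt (Nat.prime_of_mem_primesBelow hp))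

/-- the mean of the smooth part -/
noncomputable def my (y : ℕ) : ℝ := ∑' m : y.smoothNumbers, (cc m / (m : ℕ)) ^ 2

lemma mean_Py (y : ℕ) : Tendsto (fun T : ℝ => (∫ t in (1 : ℝ)..T, ‖Py y t‖) / T) atTop (𝓝 (my y)) := by
  have hpos : ∀ m : y.smoothNumbers, 0 < (m : ℕ) := fun m => Nat.pos_of_ne_zero m.2.1
  have h1 := mean_sq (fun m : y.smoothNumbers => cc m / (m : ℕ)) (by
    refine Summable.of_nonneg_of_le (fun m => div_nonneg (cc_nonneg _) (Nat.cast_nonneg _)) (fun m => ?_)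
      (summable_Py_norm y)
    exact div_le_div_of_nonneg_right (cc_le_one _) (Nat.cast_nonneg _))
    (fun m => div_nonneg (cc_nonneg _) (Nat.cast_nonneg _)) (fun m : y.smoothNumbers => -(2 * Real.log (m : ℕ)))
    (by
      intro m n h
      simp only [neg_inj] at h
      have h2 : Real.log (m : ℕ) = Real.log (n : ℕ) := by linarith
      have h3 := Real.log_injOn_pos (Set.mem_Ioi.2 (by exact_mod_cast hpos m)) (Set.mem_Ioi.2 (by exact_mod_cast hpos n)) h2
      exact Subtype.ext (by exact_mod_cast h3))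
  refine h1.congr fun T => ?_
  congr 1
  refine intervalIntegral.integral_congr fun t _ => ?_
  show ‖∑' m : y.smoothNumbers, ((cc m / (m : ℕ) : ℝ) : ℂ) *
    Complex.exp ((-(2 * Real.log (m : ℕ)) * t : ℝ) * Complex.I)‖ ^ 2 = ‖Py y t‖
  rw [← Qy_sq]
  congr 2
  unfold Qy
  refine tsum_congr fun m => ?_
  have hm0 : ((m : ℕ) : ℂ) ≠ 0 := by exact_mod_cast (hpos m).ne'
  have h4 : tw t m = ((1 / (m : ℕ) : ℝ) : ℂ) * Complex.exp ((-(2 * Real.log (m : ℕ)) * t : ℝ) * Complex.I) := by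
    unfold tw
    rw [show -(1 + 2 * (t : ℂ) * Complex.I) = -1 + -(2 * (t : ℂ) * Complex.I) by ring, Complex.cpow_add _ _ hm0,
      Complex.cpow_neg_one, Complex.cpow_def_of_ne_zero hm0, ← Complex.natCast_log]
    push_cast
    rw [one_div]
    congr 2
    ring
  rw [h4]
  push_cast
  ring

lemma cc_sum_summable : Summable (fun n : ℕ => ‖(cc n / (n : ℝ)) ^ 2‖) := by
  refine Summable.of_nonneg_of_le (fun _ => norm_nonneg _) (fun n => ?_) (Real.summable_one_div_nat_pow.2 (by norm_num : 1 < 2))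
  rw [Real.norm_of_nonneg (sq_nonneg _), div_pow]
  exact div_le_div_of_nonneg_right (pow_le_one₀ (cc_nonneg n) (cc_le_one n)) (by positivity)

lemma cc_mult {m n : ℕ} (h : m.Coprime n) : (cc (m * n) / ((m * n : ℕ) : ℝ)) ^ 2 = (cc m / (m : ℝ)) ^ 2 * (cc n / (n : ℝ)) ^ 2 := by
  rw [cc_mul h, Nat.cast_mul, ← mul_pow, div_mul_div_comm]

/-- the mean of `|ζ(1 + 2 i t)|` -/
noncomputable def mz : ℝ := ∏' p : Nat.Primes, ∑' k : ℕ, ((Nat.centralBinom k : ℝ) / 4 ^ k) ^ 2 / ((p : ℕ) : ℝ) ^ (2 * k)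

lemma term_eq {p : ℕ} (hp : p.Prime) (k : ℕ) : (cc (p ^ k) / ((p ^ k : ℕ) : ℝ)) ^ 2 =
    ((Nat.centralBinom k : ℝ) / 4 ^ k) ^ 2 / (p : ℝ) ^ (2 * k) := by
  rw [cc_pow hp, div_pow, Nat.cast_pow, ← pow_mul, mul_comm k 2]
  rfl

lemma mz_eq : mz = ∑' n : ℕ, (cc n / (n : ℝ)) ^ 2 := by
  have h := EulerProduct.eulerProduct_tprod (f := fun n : ℕ => (cc n / (n : ℝ)) ^ 2) (by simp [cc_one])
    (fun {m n} h => cc_mult h) cc_sum_summable (by simp)
  rw [← h]
  unfold mz
  refine tprod_congr fun p => tsum_congr fun k => ?_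
  exact (term_eq p.2 k).symm

lemma my_tendsto : Tendsto my atTop (𝓝 mz) := by
  have h := EulerProduct.eulerProduct (f := fun n : ℕ => (cc n / (n : ℝ)) ^ 2) (by simp [cc_one])
    (fun {m n} h => cc_mult h) cc_sum_summable (by simp)
  rw [mz_eq]
  refine h.congr fun y => ?_
  exact EulerProduct.prod_primesBelow_tsum_eq_tsum_smoothNumbers (f := fun n : ℕ => (cc n / (n : ℝ)) ^ 2)
    (by simp [cc_one]) (fun {m n} h => cc_mult h) cc_sum_summable y

lemma one_le_mz : 1 ≤ mz := by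
  rw [mz_eq]
  have h := cc_sum_summable.of_norm.sum_le_tsum {1} (fun n _ => sq_nonneg _)
  simpa [cc_one] using h

end Pool.Agent.Helper11.RMT
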